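import Pool.Agent.Y209.QA.Cfg

/-! The logarithmic plurigenera of the open surface. -/

namespace Pool.Agent.Y209.QA

open scoped LinearAlgebra.Projectivization
open Pool.Agent.Y209.Geo (P2)
open MvPolynomial

/-- the linear form defining a line -/
noncomputable def Lf (k : Fin 9) : MvPolynomial (Fin 3) ℂ := ∑ j, C (evv (lz k) j) * X j

theorem eval_Lf (k : Fin 9) (v : Fin 3 → ℂ) : eval v (Lf k) = v ⬝ᵥ evv (lz k) := by
  simp only [Lf, map_sum, map_mul, eval_C, eval_X, dotProduct]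
  exact Finset.sum_congr rfl fun j _ => mul_comm _ _

theorem Lf_hom (k : Fin 9) : (Lf k).IsHomogeneous 1 := by
  unfold Lf
  apply IsHomogeneous.sum
  intro j _
  have := (isHomogeneous_C (Fin 3) (evv (lz k) j)).mul (isHomogeneous_X ℂ j)
  simpa using this

theorem Lf_ne (k : Fin 9) : Lf k ≠ 0 := by
  intro h
  apply lz_ne k
  funext j
  have h1 := eval_Lf k (Pi.single j 1)
  rw [h, map_zero, single_dotProduct, one_mul] at h1
  exact h1.symm

/-- the ideal of a point -/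
noncomputable def Im (i : Fin 12) : Ideal (MvPolynomial (Fin 3) ℂ) :=
  RingHom.ker (eval (qq i).rep)

theorem Lf_mem (i : Fin 12) (k : Fin 9) (h : dz (pz i) (lz k) = (0, 0)) : Lf k ∈ Im i := by
  rw [Im, RingHom.mem_ker, eval_Lf]
  have h1 := (inc_iff i k).mpr h
  have h2 : (Projectivization.mk ℂ (qq i).rep (qq i).rep_nonzero).orthogonal (ll k) := by
    rw [Projectivization.mk_rep]; exact h1
  rw [ll, Projectivization.orthogonal_mk] at h2
  exact h2

/-- the product of the forms of the affine lines -/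
noncomputable def Q8 : MvPolynomial (Fin 3) ℂ := ∏ k : Fin 8, Lf (Fin.castSucc k)

theorem Q8_ne : Q8 ≠ 0 := Finset.prod_ne_zero_iff.mpr fun _ _ => Lf_ne _

theorem Q8_hom : Q8.IsHomogeneous 8 := by
  have := IsHomogeneous.prod (Finset.univ : Finset (Fin 8)) (fun k => Lf (Fin.castSucc k))
    (fun _ => 1) (fun k _ => Lf_hom _)
  simpa [Q8] using this

/-- multiplicities of the product at the points -/
def mu : Fin 12 → ℕ := ![3, 3, 3, 3, 3, 3, 3, 3, 2, 2, 2, 2]

theorem card_mu (i : Fin 12) : (Finset.univ.filter fun k : Fin 8 =>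
    dz (pz i) (lz (Fin.castSucc k)) = (0, 0)).card = mu i := by
  revert i
  decide

theorem Q8_mem (i : Fin 12) : Q8 ∈ Im i ^ mu i := by
  unfold Q8
  rw [← Finset.prod_filter_mul_prod_filter_not Finset.univ
    (fun k : Fin 8 => dz (pz i) (lz (Fin.castSucc k)) = (0, 0))]
  apply Ideal.mul_mem_right
  rw [← card_mu i, ← Finset.prod_const]
  apply Ideal.prod_mem_prod
  intro k hk
  exact Lf_mem i _ (Finset.mem_filter.mp hk).2

/-- the sections -/
noncomputable def sec (n : ℕ) (x : Fin (n + 1) × Fin (n + 1)) : MvPolynomial (Fin 3) ℂ :=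
  Q8 ^ (2 * n) * (X 0 ^ x.1.1 * X 1 ^ x.2.1 * X 2 ^ (2 * n - x.1.1 - x.2.1))

theorem sec_hom (n : ℕ) (x : Fin (n + 1) × Fin (n + 1)) : (sec n x).IsHomogeneous (18 * n) := by
  have h1 := Q8_hom.pow (2 * n)
  have h2 := (isHomogeneous_X ℂ (0 : Fin 3)).pow x.1.1
  have h3 := (isHomogeneous_X ℂ (1 : Fin 3)).pow x.2.1
  have h4 := (isHomogeneous_X ℂ (2 : Fin 3)).pow (2 * n - x.1.1 - x.2.1)
  have h5 := h1.mul ((h2.mul h3).mul h4)
  have e : 8 * (2 * n) + (1 * x.1.1 + 1 * x.2.1 + 1 * (2 * n - x.1.1 - x.2.1)) = 18 * n := by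
    have := x.1.2
    have := x.2.2
    omega
  rw [← e]
  exact h5

theorem sec_mem_pow (n : ℕ) (x : Fin (n + 1) × Fin (n + 1)) (i : Fin 12) :
    sec n x ∈ Im i ^ (mu i * (2 * n)) := by
  unfold sec
  apply Ideal.mul_mem_right
  rw [pow_mul]
  exact Ideal.pow_mem_pow (Q8_mem i) _

theorem smul_KD (n : ℕ) : (3 * n) • (KV 12 + clD qq ll ee) =
    (18 * (n : ℤ), fun i => 3 * n * (![2, 2, 2, 2, 2, 2, 2, 2, 1, 1, 1, 1] : Fin 12 → ℤ) i) := by
  rw [KD_eq]
  apply Prod.ext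
  · simp only [Prod.smul_mk, nsmul_eq_mul]
    push_cast
    ring
  · funext i
    change (3 * n) • (![2, 2, 2, 2, 2, 2, 2, 2, 1, 1, 1, 1] : Fin 12 → ℤ) i = _
    rw [nsmul_eq_mul]
    push_cast
    ring

theorem mu_ge (n : ℕ) (i : Fin 12) :
    (3 * (n : ℤ) * (![2, 2, 2, 2, 2, 2, 2, 2, 1, 1, 1, 1] : Fin 12 → ℤ) i).toNat ≤
      mu i * (2 * n) := by
  have h : (![2, 2, 2, 2, 2, 2, 2, 2, 1, 1, 1, 1] : Fin 12 → ℤ) i * 3 ≤ mu i * 2 := by
    revert i; decide
  have h2 : 3 * (n : ℤ) * (![2, 2, 2, 2, 2, 2, 2, 2, 1, 1, 1, 1] : Fin 12 → ℤ) i ≤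
      ((mu i * (2 * n) : ℕ) : ℤ) := by
    push_cast
    nlinarith
  exact Int.toNat_le.mpr h2

theorem sec_mem (n : ℕ) (x : Fin (n + 1) × Fin (n + 1)) :
    sec n x ∈ H0 qq ((3 * n) • (KV 12 + clD qq ll ee)) := by
  rw [smul_KD]
  unfold H0
  rw [Submodule.mem_inf]
  constructor
  · rw [if_pos (by positivity)]
    have e : (18 * (n : ℤ)).toNat = 18 * n := by omega
    change sec n x ∈ homogeneousSubmodule (Fin 3) ℂ (18 * (n : ℤ)).toNat
    rw [e]
    exact (mem_homogeneousSubmodule _ _).mpr (sec_hom n x)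
  · rw [Submodule.mem_iInf]
    intro i
    exact Ideal.pow_le_pow_right (mu_ge n i) (sec_mem_pow n x i)

/-- the exponents -/
noncomputable def expo (n : ℕ) (x : Fin (n + 1) × Fin (n + 1)) : Fin 3 →₀ ℕ :=
  Finsupp.single 0 x.1.1 + Finsupp.single 1 x.2.1 + Finsupp.single 2 (2 * n - x.1.1 - x.2.1)

theorem expo_inj (n : ℕ) : Function.Injective (expo n) := by
  intro x y h
  have h0 := DFunLike.congr_fun h 0
  have h1 := DFunLike.congr_fun h 1
  simp [expo, Finsupp.single_apply] at h0 h1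
  exact Prod.ext (Fin.ext h0) (Fin.ext h1)

theorem sec_eq (n : ℕ) (x : Fin (n + 1) × Fin (n + 1)) :
    sec n x = Q8 ^ (2 * n) * monomial (expo n x) 1 := by
  unfold sec expo
  rw [X_pow_eq_monomial, X_pow_eq_monomial, X_pow_eq_monomial, monomial_mul, monomial_mul]
  simp

theorem sec_li (n : ℕ) : LinearIndependent ℂ (sec n) := by
  have h1 : LinearIndependent ℂ fun x => (monomial (expo n x) (1 : ℂ)) := by
    have := (basisMonomials (Fin 3) ℂ).linearIndependent.comp (expo n) (expo_inj n)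
    have e : (fun x => (monomial (expo n x) (1 : ℂ))) =
        (basisMonomials (Fin 3) ℂ) ∘ expo n := by
      funext x
      simp [coe_basisMonomials]
    rw [e]
    exact this
  have h2 := h1.map' (LinearMap.mulLeft ℂ (Q8 ^ (2 * n))) (by
    rw [LinearMap.ker_eq_bot]
    intro a b hab
    exact mul_left_cancel₀ (pow_ne_zero _ Q8_ne) hab)
  have e : sec n = (LinearMap.mulLeft ℂ (Q8 ^ (2 * n))) ∘ fun x => (monomial (expo n x) (1 : ℂ)) := by
    funext x
    exact sec_eq n x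
  rw [e]
  exact h2

instance H0_fin {m : ℕ} (q : Fin m → P2) (x : ℤ × (Fin m → ℤ)) : Module.Finite ℂ (H0 q x) := by
  have h : Module.Finite ℂ (homogeneousSubmodule (Fin 3) ℂ x.1.toNat) :=
    Module.Finite.of_fg (homogeneousSubmodule_fg (Fin 3) ℂ _)
  apply Submodule.finiteDimensional_of_le (S₂ := homogeneousSubmodule (Fin 3) ℂ x.1.toNat)
  intro f hf
  unfold H0 at hf
  have h1 := (Submodule.mem_inf.mp hf).1
  split_ifs at h1 with h2
  · exact h1
  · rw [Submodule.mem_bot] at h1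
    rw [h1]
    exact Submodule.zero_mem _

theorem finrank_ge (n : ℕ) :
    (n + 1) ^ 2 ≤ Module.finrank ℂ (H0 qq ((3 * n) • (KV 12 + clD qq ll ee))) := by
  have h : LinearIndependent ℂ fun x : Fin (n + 1) × Fin (n + 1) =>
      (⟨sec n x, sec_mem n x⟩ : H0 qq ((3 * n) • (KV 12 + clD qq ll ee))) := by
    apply LinearIndependent.of_comp (H0 qq ((3 * n) • (KV 12 + clD qq ll ee))).subtype
    exact sec_li n
  have h2 := h.fintype_card_le_finrank
  simpa [Fintype.card_prod, Fintype.card_fin, pow_two] using h2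

/-- `κ̄(X) = 2` -/
theorem logGeneralType : LogGeneralType qq ll ee := by
  refine ⟨1 / 9, by norm_num, ?_⟩
  rw [Filter.frequently_atTop]
  intro a
  refine ⟨3 * a, by omega, ?_⟩
  have h := finrank_ge a
  have h2 : ((a : ℝ) + 1) ^ 2 ≤
      (Module.finrank ℂ (H0 qq ((3 * a) • (KV 12 + clD qq ll ee))) : ℝ) := by
    exact_mod_cast h
  refine le_trans ?_ h2
  push_cast
  nlinarith [(Nat.cast_nonneg a : (0 : ℝ) ≤ a)]

end Pool.Agent.Y209.QA
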