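import Pool.Agent.Y209.QA.DualP

/-! Two explicit sections of `Ω¹_V(log D) ⊗ K_V`, and their independence. -/

namespace Pool.Agent.Y209.QA

open scoped LinearAlgebra.Projectivization
open Pool.Agent.Y209.Geo (P2)
open MvPolynomial

/-- the first section in the new coordinates -/
noncomputable def F1 (i : Fin 3) : MvPolynomial (Fin 3) ℂ :=
  Hc (i + 1) ^ 4 * Hc (i + 2) - Hc (i + 2) ^ 4 * Hc (i + 1)

/-- the second section in the new coordinates -/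
noncomputable def F2 (i : Fin 3) : MvPolynomial (Fin 3) ℂ :=
  Hc i ^ 2 * (Hc (i + 2) ^ 3 - Hc (i + 1) ^ 3)

theorem f11 (i : Fin 3) : i + 1 + 1 = i + 2 := by revert i; decide
theorem f12 (i : Fin 3) : i + 1 + 2 = i := by revert i; decide
theorem f21 (i : Fin 3) : i + 2 + 1 = i := by revert i; decide
theorem f22 (i : Fin 3) : i + 2 + 2 = i + 1 := by revert i; decide

theorem cases3 : ∀ i m : Fin 3, m = i ∨ m = i + 1 ∨ m = i + 2 := by decide

theorem Hc_hom (i : Fin 3) : (Hc i).IsHomogeneous 1 := by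
  unfold Hc
  apply IsHomogeneous.sum
  intro j _
  have := (isHomogeneous_C (Fin 3) ((Mr i j : ℤ) : ℂ)).mul (isHomogeneous_X ℂ j)
  simpa using this

theorem F1_hom (i : Fin 3) : (F1 i).IsHomogeneous 5 := by
  have h1 := ((Hc_hom (i + 1)).pow 4).mul (Hc_hom (i + 2))
  have h2 := ((Hc_hom (i + 2)).pow 4).mul (Hc_hom (i + 1))
  exact h1.sub h2

theorem F2_hom (i : Fin 3) : (F2 i).IsHomogeneous 5 := by
  have h1 := ((Hc_hom i).pow 2).mul (((Hc_hom (i + 2)).pow 3).sub ((Hc_hom (i + 1)).pow 3))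
  exact h1

theorem cubeC {g : ℂ} (h : g ^ 3 = 1) : (C g : MvPolynomial (Fin 3) ℂ) ^ 3 = 1 := by
  rw [← map_pow, h, map_one]

section Ring

variable {R : Type*} [CommRing R]

theorem fam1 (x y z a b : R) (ha : a ^ 3 = 1) (hb : b ^ 3 = 1) :
    y ^ 4 * z - z ^ 4 * y + a * (z ^ 4 * x - x ^ 4 * z) + b * (x ^ 4 * y - y ^ 4 * x) =
      a * b * (x ^ 2 + (a ^ 2 * y) ^ 2 + (b ^ 2 * z) ^ 2 + x * (a ^ 2 * y) +
        (a ^ 2 * y) * (b ^ 2 * z) + x * (b ^ 2 * z)) *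
        ((x - a ^ 2 * y) * (a ^ 2 * y - b ^ 2 * z) * (x - b ^ 2 * z)) := by
  obtain ⟨y', hy'⟩ : ∃ y', y' = a ^ 2 * y := ⟨_, rfl⟩
  obtain ⟨z', hz'⟩ : ∃ z', z' = b ^ 2 * z := ⟨_, rfl⟩
  have hy : y = a * y' := by rw [hy']; linear_combination (-y) * ha
  have hz : z = b * z' := by rw [hz']; linear_combination (-z) * hb
  rw [← hy', ← hz', hy, hz]
  linear_combination (a * b * (y' ^ 4 * z' - y' ^ 4 * x)) * ha +
    (a * b * (z' ^ 4 * x - z' ^ 4 * y')) * hb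

theorem fam2 (x y z a b : R) (ha : a ^ 3 = 1) (hb : b ^ 3 = 1) :
    x ^ 2 * (z ^ 3 - y ^ 3) + a * (y ^ 2 * (x ^ 3 - z ^ 3)) + b * (z ^ 2 * (y ^ 3 - x ^ 3)) =
      (x * (a ^ 2 * y) + (a ^ 2 * y) * (b ^ 2 * z) + x * (b ^ 2 * z)) *
        ((x - a ^ 2 * y) * (a ^ 2 * y - b ^ 2 * z) * (x - b ^ 2 * z)) := by
  obtain ⟨y', hy'⟩ : ∃ y', y' = a ^ 2 * y := ⟨_, rfl⟩
  obtain ⟨z', hz'⟩ : ∃ z', z' = b ^ 2 * z := ⟨_, rfl⟩
  have hy : y = a * y' := by rw [hy']; linear_combination (-y) * ha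
  have hz : z = b * z' := by rw [hz']; linear_combination (-z) * hb
  rw [← hy', ← hz', hy, hz]
  linear_combination (-x ^ 2 * y' ^ 3 + y' ^ 2 * x ^ 3 - b ^ 3 * y' ^ 2 * z' ^ 3 +
      b ^ 3 * z' ^ 2 * y' ^ 3) * ha +
    (x ^ 2 * z' ^ 3 - y' ^ 2 * z' ^ 3 + z' ^ 2 * y' ^ 3 - z' ^ 2 * x ^ 3) * hb

/-- the product of three elements of an ideal -/
theorem three_mem {I : Ideal R} {x y z : R} (hx : x ∈ I) (hy : y ∈ I) (hz : z ∈ I) :
    x * y * z ∈ I ^ 3 := by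
  rw [pow_succ, pow_two]
  exact Ideal.mul_mem_mul (Ideal.mul_mem_mul hx hy) hz

/-- the three factors are in the ideal -/
theorem factors_mem {I : Ideal R} (x y z a b : R) (ha : a ^ 3 = 1) (hb : b ^ 3 = 1)
    (h1 : y - a * x ∈ I) (h2 : z - b * x ∈ I) :
    (x - a ^ 2 * y) * (a ^ 2 * y - b ^ 2 * z) * (x - b ^ 2 * z) ∈ I ^ 3 := by
  have e1 : x - a ^ 2 * y ∈ I := by
    have := I.mul_mem_left (-a ^ 2) h1
    have e : x - a ^ 2 * y = -a ^ 2 * (y - a * x) := by linear_combination (-x) * ha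
    rw [e]; exact this
  have e2 : x - b ^ 2 * z ∈ I := by
    have := I.mul_mem_left (-b ^ 2) h2
    have e : x - b ^ 2 * z = -b ^ 2 * (z - b * x) := by linear_combination (-x) * hb
    rw [e]; exact this
  have e3 : a ^ 2 * y - b ^ 2 * z ∈ I := by
    have := I.sub_mem e2 e1
    have e : a ^ 2 * y - b ^ 2 * z = (x - b ^ 2 * z) - (x - a ^ 2 * y) := by ring
    rw [e]; exact this
  exact three_mem e1 e3 e2

end Ring

theorem good1 : Good F1 where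
  hom := F1_hom
  euler := by
    rw [Fin.sum_univ_three]
    unfold F1
    change Hc 0 * (Hc 1 ^ 4 * Hc 2 - Hc 2 ^ 4 * Hc 1) + Hc 1 * (Hc 2 ^ 4 * Hc 0 - Hc 0 ^ 4 * Hc 2) +
      Hc 2 * (Hc 0 ^ 4 * Hc 1 - Hc 1 ^ 4 * Hc 0) = 0
    ring
  line1 := by
    intro i g hg
    unfold F1
    rw [f21, f22, Ideal.mem_span_singleton']
    refine ⟨Hc i * Hc (i + 1) *
      (Hc i ^ 2 + C g * Hc i * Hc (i + 1) + C g ^ 2 * Hc (i + 1) ^ 2), ?_⟩
    linear_combination (-Hc i * Hc (i + 1) ^ 4) * cubeC hg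
  line2 := by
    intro i g hg
    unfold F1
    rw [f11, f12, Ideal.mem_span_singleton']
    refine ⟨Hc (i + 2) ^ 4 - Hc (i + 2) * (Hc i ^ 3 + Hc i ^ 2 * (C g * Hc (i + 1)) +
      Hc i * (C g * Hc (i + 1)) ^ 2 + (C g * Hc (i + 1)) ^ 3), ?_⟩
    linear_combination (C g * Hc (i + 2) * Hc (i + 1) ^ 4) * cubeC hg
  pt1 := by
    intro I α β hα hβ h1 h2
    have e : F1 0 + C α * F1 1 + C β * F1 2 = Hc 1 ^ 4 * Hc 2 - Hc 2 ^ 4 * Hc 1 +
        C α * (Hc 2 ^ 4 * Hc 0 - Hc 0 ^ 4 * Hc 2) + C β * (Hc 0 ^ 4 * Hc 1 - Hc 1 ^ 4 * Hc 0) := rfl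
    rw [e, fam1 _ _ _ _ _ (cubeC hα) (cubeC hβ)]
    exact Ideal.mul_mem_left _ _ (factors_mem _ _ _ _ _ (cubeC hα) (cubeC hβ) h1 h2)
  pt1' := by
    intro I α β hα hβ h1 h2
    have hα := congrArg (Ideal.Quotient.mk I) (cubeC hα)
    have hβ := congrArg (Ideal.Quotient.mk I) (cubeC hβ)
    rw [← Ideal.Quotient.eq_zero_iff_mem] at h1 h2
    simp only [map_sub, map_mul, map_pow, map_one] at h1 h2 hα hβ
    have h1' := sub_eq_zero.mp h1
    have h2' := sub_eq_zero.mp h2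
    intro i
    rw [← Ideal.Quotient.eq_zero_iff_mem]
    fin_cases i
    · change Ideal.Quotient.mk I (Hc 1 ^ 4 * Hc 2 - Hc 2 ^ 4 * Hc 1) = 0
      simp only [map_sub, map_mul, map_pow, h1', h2']
      linear_combination (Ideal.Quotient.mk I (Hc 0) ^ 5 * Ideal.Quotient.mk I (C α) *
        Ideal.Quotient.mk I (C β)) * hα - (Ideal.Quotient.mk I (Hc 0) ^ 5 *
        Ideal.Quotient.mk I (C α) * Ideal.Quotient.mk I (C β)) * hβ
    · change Ideal.Quotient.mk I (Hc 2 ^ 4 * Hc 0 - Hc 0 ^ 4 * Hc 2) = 0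
      simp only [map_sub, map_mul, map_pow, h2']
      linear_combination (Ideal.Quotient.mk I (Hc 0) ^ 5 * Ideal.Quotient.mk I (C β)) * hβ
    · change Ideal.Quotient.mk I (Hc 0 ^ 4 * Hc 1 - Hc 1 ^ 4 * Hc 0) = 0
      simp only [map_sub, map_mul, map_pow, h1']
      linear_combination (-Ideal.Quotient.mk I (Hc 0) ^ 5 * Ideal.Quotient.mk I (C α)) * hα
  pt2 := by
    intro I i h1 h2
    have e : F1 i = (Hc (i + 1) ^ 2) * (Hc (i + 1) * Hc (i + 1) * Hc (i + 2)) -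
        (Hc (i + 2) ^ 2) * (Hc (i + 2) * Hc (i + 2) * Hc (i + 1)) := by unfold F1; ring
    rw [e]
    exact Ideal.sub_mem _ (Ideal.mul_mem_left _ _ (three_mem h1 h1 h2))
      (Ideal.mul_mem_left _ _ (three_mem h2 h2 h1))
  pt2' := by
    intro I i h1 h2
    intro m
    rcases cases3 i m with rfl | rfl | rfl
    · unfold F1
      exact Ideal.sub_mem _ (Ideal.mul_mem_left _ _ h2) (Ideal.mul_mem_left _ _ h1)
    · unfold F1
      rw [f11, f12]
      refine Ideal.sub_mem _ (Ideal.mul_mem_right _ _ (Ideal.pow_mem_of_mem _ h2 _ (by norm_num)))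
        (Ideal.mul_mem_left _ _ h2)
    · unfold F1
      rw [f21, f22]
      refine Ideal.sub_mem _ (Ideal.mul_mem_left _ _ h1)
        (Ideal.mul_mem_right _ _ (Ideal.pow_mem_of_mem _ h1 _ (by norm_num)))

theorem good2 : Good F2 where
  hom := F2_hom
  euler := by
    rw [Fin.sum_univ_three]
    unfold F2
    change Hc 0 * (Hc 0 ^ 2 * (Hc 2 ^ 3 - Hc 1 ^ 3)) + Hc 1 * (Hc 1 ^ 2 * (Hc 0 ^ 3 - Hc 2 ^ 3)) +
      Hc 2 * (Hc 2 ^ 2 * (Hc 1 ^ 3 - Hc 0 ^ 3)) = 0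
    ring
  line1 := by
    intro i g hg
    unfold F2
    rw [f21, f22, Ideal.mem_span_singleton']
    refine ⟨-Hc (i + 2) ^ 2 *
      (Hc i ^ 2 + C g * Hc i * Hc (i + 1) + C g ^ 2 * Hc (i + 1) ^ 2), ?_⟩
    linear_combination (Hc (i + 2) ^ 2 * Hc (i + 1) ^ 3) * cubeC hg
  line2 := by
    intro i g hg
    unfold F2
    rw [f11, f12, Ideal.mem_span_singleton']
    refine ⟨C g * Hc (i + 2) ^ 3 * (Hc i + C g * Hc (i + 1)) + Hc i ^ 2 * Hc (i + 1) ^ 2, ?_⟩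
    linear_combination (-Hc (i + 2) ^ 3 * Hc (i + 1) ^ 2) * cubeC hg
  pt1 := by
    intro I α β hα hβ h1 h2
    have e : F2 0 + C α * F2 1 + C β * F2 2 = Hc 0 ^ 2 * (Hc 2 ^ 3 - Hc 1 ^ 3) +
        C α * (Hc 1 ^ 2 * (Hc 0 ^ 3 - Hc 2 ^ 3)) + C β * (Hc 2 ^ 2 * (Hc 1 ^ 3 - Hc 0 ^ 3)) := rfl
    rw [e, fam2 _ _ _ _ _ (cubeC hα) (cubeC hβ)]
    exact Ideal.mul_mem_left _ _ (factors_mem _ _ _ _ _ (cubeC hα) (cubeC hβ) h1 h2)
  pt1' := by
    intro I α β hα hβ h1 h2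
    have hα := congrArg (Ideal.Quotient.mk I) (cubeC hα)
    have hβ := congrArg (Ideal.Quotient.mk I) (cubeC hβ)
    rw [← Ideal.Quotient.eq_zero_iff_mem] at h1 h2
    simp only [map_sub, map_mul, map_pow, map_one] at h1 h2 hα hβ
    have h1' := sub_eq_zero.mp h1
    have h2' := sub_eq_zero.mp h2
    intro i
    rw [← Ideal.Quotient.eq_zero_iff_mem]
    fin_cases i
    · change Ideal.Quotient.mk I (Hc 0 ^ 2 * (Hc 2 ^ 3 - Hc 1 ^ 3)) = 0
      simp only [map_sub, map_mul, map_pow, h1', h2']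
      linear_combination (Ideal.Quotient.mk I (Hc 0) ^ 5) * hβ -
        (Ideal.Quotient.mk I (Hc 0) ^ 5) * hα
    · change Ideal.Quotient.mk I (Hc 1 ^ 2 * (Hc 0 ^ 3 - Hc 2 ^ 3)) = 0
      simp only [map_sub, map_mul, map_pow, h1', h2']
      linear_combination (-Ideal.Quotient.mk I (Hc 0) ^ 5 * Ideal.Quotient.mk I (C α) ^ 2) * hβ
    · change Ideal.Quotient.mk I (Hc 2 ^ 2 * (Hc 1 ^ 3 - Hc 0 ^ 3)) = 0
      simp only [map_sub, map_mul, map_pow, h1', h2']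
      linear_combination (Ideal.Quotient.mk I (Hc 0) ^ 5 * Ideal.Quotient.mk I (C β) ^ 2) * hα
  pt2 := by
    intro I i h1 h2
    have e : F2 i = Hc i ^ 2 * (Hc (i + 2) * Hc (i + 2) * Hc (i + 2) -
        Hc (i + 1) * Hc (i + 1) * Hc (i + 1)) := by unfold F2; ring
    rw [e]
    exact Ideal.mul_mem_left _ _ (Ideal.sub_mem _ (three_mem h2 h2 h2) (three_mem h1 h1 h1))
  pt2' := by
    intro I i h1 h2
    intro m
    rcases cases3 i m with rfl | rfl | rfl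
    · unfold F2
      exact Ideal.mul_mem_left _ _ (Ideal.sub_mem _ (Ideal.pow_mem_of_mem _ h2 _ (by norm_num))
        (Ideal.pow_mem_of_mem _ h1 _ (by norm_num)))
    · unfold F2
      exact Ideal.mul_mem_right _ _ (Ideal.pow_mem_of_mem _ h1 _ (by norm_num))
    · unfold F2
      exact Ideal.mul_mem_right _ _ (Ideal.pow_mem_of_mem _ h2 _ (by norm_num))

/-- a test point -/
noncomputable def tp : Fin 3 → ℂ := ![1, 6, -3]

theorem eval_tp (i : Fin 3) : eval tp (Hc i) = ![12, 6, 0] i := by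
  have key : ∀ i, eval tp (Hc i) = (Mr i 0 : ℂ) * 1 + (Mr i 1 : ℂ) * 6 + (Mr i 2 : ℂ) * (-3) := by
    intro i
    simp only [Hc, Fin.sum_univ_three, map_add, map_mul, eval_C, eval_X]
    rfl
  rw [key]
  fin_cases i <;> simp [Mr] <;> norm_num

theorem sections_li : LinearIndependent ℂ ![Pc F1, Pc F2] := by
  rw [LinearIndependent.pair_iff]
  intro s t h
  have key : ∀ j, s * eval tp (Pc F1 j) + t * eval tp (Pc F2 j) = 0 := by
    intro j
    have h1 := congrArg (fun P : Fin 3 → MvPolynomial (Fin 3) ℂ => eval tp (P j)) h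
    simpa [smul_eq_C_mul] using h1
  have v1 : ∀ j, eval tp (Pc F1 j) = (Mr 2 j : ℂ) * (12 ^ 4 * 6 - 6 ^ 4 * 12) := by
    intro j
    unfold Pc
    rw [Fin.sum_univ_three]
    have a0 : eval tp (F1 0) = 0 := by
      change eval tp (Hc 1 ^ 4 * Hc 2 - Hc 2 ^ 4 * Hc 1) = 0
      simp [eval_tp]
    have a1 : eval tp (F1 1) = 0 := by
      change eval tp (Hc 2 ^ 4 * Hc 0 - Hc 0 ^ 4 * Hc 2) = 0
      simp [eval_tp]
    have a2 : eval tp (F1 2) = 12 ^ 4 * 6 - 6 ^ 4 * 12 := by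
      change eval tp (Hc 0 ^ 4 * Hc 1 - Hc 1 ^ 4 * Hc 0) = _
      simp [eval_tp]
    simp only [map_add, map_mul, eval_C, a0, a1, a2]
    ring
  have v2 : ∀ j, eval tp (Pc F2 j) = -(Mr 0 j : ℂ) * (12 ^ 2 * 6 ^ 3) +
      (Mr 1 j : ℂ) * (6 ^ 2 * 12 ^ 3) := by
    intro j
    unfold Pc
    rw [Fin.sum_univ_three]
    have a0 : eval tp (F2 0) = -(12 ^ 2 * 6 ^ 3) := by
      change eval tp (Hc 0 ^ 2 * (Hc 2 ^ 3 - Hc 1 ^ 3)) = _
      simp [eval_tp]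
    have a1 : eval tp (F2 1) = 6 ^ 2 * 12 ^ 3 := by
      change eval tp (Hc 1 ^ 2 * (Hc 0 ^ 3 - Hc 2 ^ 3)) = _
      simp [eval_tp]
    have a2 : eval tp (F2 2) = 0 := by
      change eval tp (Hc 2 ^ 2 * (Hc 1 ^ 3 - Hc 0 ^ 3)) = _
      simp [eval_tp]
    simp only [map_add, map_mul, eval_C, a0, a1, a2]
    ring
  have k0 := key 0
  have k1 := key 1
  rw [v1, v2] at k0 k1
  simp [Mr] at k0 k1
  norm_num at k0 k1
  rw [k0, zero_mul, add_zero] at k1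
  refine ⟨?_, k0⟩
  rcases mul_eq_zero.mp k1 with h0 | h0
  · exact h0
  · norm_num at h0

instance H0Dual_fin {n r s : ℕ} (q : Fin n → P2) (a : Fin r → P2) (e : Fin s → Fin n) :
    Module.Finite ℂ (H0Dual q a e) := by
  have h : Module.Finite ℂ (homogeneousSubmodule (Fin 3) ℂ (r - 4)) :=
    Module.Finite.of_fg (homogeneousSubmodule_fg (Fin 3) ℂ _)
  let f : H0Dual q a e →ₗ[ℂ] (Fin 3 → homogeneousSubmodule (Fin 3) ℂ (r - 4)) :=
    LinearMap.pi fun j => LinearMap.codRestrict _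
      ((LinearMap.proj j).comp (H0Dual q a e).subtype) (fun P => P.2.1 j)
  refine Module.Finite.of_injective f ?_
  intro P Q h
  apply Subtype.ext
  funext j
  have h1 := congrFun h j
  exact congrArg Subtype.val h1

/-- there are at least two independent sections -/
theorem dual_ge : 2 ≤ Module.finrank ℂ (H0Dual qq ll ee) := by
  have h : LinearIndependent ℂ ![(⟨Pc F1, good1.mem⟩ : H0Dual qq ll ee), ⟨Pc F2, good2.mem⟩] := by
    apply LinearIndependent.of_comp (H0Dual qq ll ee).subtype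
    have e : (H0Dual qq ll ee).subtype ∘
        ![(⟨Pc F1, good1.mem⟩ : H0Dual qq ll ee), ⟨Pc F2, good2.mem⟩] = ![Pc F1, Pc F2] := by
      funext i
      fin_cases i <;> rfl
    rw [e]
    exact sections_li
  have h2 := h.fintype_card_le_finrank
  simpa using h2

end Pool.Agent.Y209.QA
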