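import Pool.Agent.Y209.QA.Gen

/-!
# The dual Hesse arrangement

Coordinates in the Eisenstein integers: the pair `(a, b)` stands for `a + b ω`, where
`ω = (-1 + √-3) / 2`.
-/

namespace Pool.Agent.Y209.QA

open scoped LinearAlgebra.Projectivization
open Pool.Agent.Y209.Geo (P2)

/-- `ω = (-1 + √-3) / 2` -/
noncomputable def om : ℂ := ⟨-1 / 2, Real.sqrt 3 / 2⟩

theorem om_rel : om ^ 2 + om + 1 = 0 := by
  have h3 : Real.sqrt 3 * Real.sqrt 3 = 3 := Real.mul_self_sqrt (by norm_num)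
  apply Complex.ext
  · simp [om, pow_two, Complex.mul_re]
    nlinarith
  · simp [om, pow_two, Complex.mul_im]
    ring

/-- `a + b ω` -/
noncomputable def ev (x : ℤ × ℤ) : ℂ := x.1 + x.2 * om

/-- product of Eisenstein integers -/
def em (x y : ℤ × ℤ) : ℤ × ℤ := (x.1 * y.1 - x.2 * y.2, x.1 * y.2 + x.2 * y.1 - x.2 * y.2)

theorem ev_em (x y : ℤ × ℤ) : ev (em x y) = ev x * ev y := by
  simp only [ev, em]
  push_cast
  linear_combination (-(x.2 : ℂ) * y.2) * om_rel

theorem ev_add (x y : ℤ × ℤ) : ev (x + y) = ev x + ev y := by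
  simp only [ev, Prod.fst_add, Prod.snd_add]
  push_cast
  ring

theorem ev_sub (x y : ℤ × ℤ) : ev (x - y) = ev x - ev y := by
  simp only [ev, Prod.fst_sub, Prod.snd_sub]
  push_cast
  ring

theorem ev_eq_zero (x : ℤ × ℤ) : ev x = 0 ↔ x = (0, 0) := by
  constructor
  · intro h
    have h1 := congrArg Complex.im h
    have h2 := congrArg Complex.re h
    simp [ev, om] at h1 h2
    have h3 : x.2 = 0 := h1
    rw [h3] at h2
    simp at h2
    exact Prod.ext h2 h3
  · rintro rfl
    simp [ev]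

/-- coordinates `(z, x, y)` of the twelve points; the last four are on the line `z = 0` -/
def pz : Fin 12 → Fin 3 → ℤ × ℤ :=
  ![![(1, 0), (0, 0), (1, 2)], ![(1, 0), (0, 0), (-1, -2)], ![(1, 0), (2, 0), (-1, 0)],
    ![(1, 0), (0, 2), (-1, 0)], ![(1, 0), (-2, -2), (-1, 0)], ![(1, 0), (-2, 0), (1, 0)],
    ![(1, 0), (0, -2), (1, 0)], ![(1, 0), (2, 2), (1, 0)],
    ![(0, 0), (1, 0), (0, 0)], ![(0, 0), (1, 0), (1, 0)], ![(0, 0), (1, 0), (0, 1)],
    ![(0, 0), (1, 0), (-1, -1)]]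

/-- equations of the nine lines; the last one is the line `z = 0` -/
def lz : Fin 9 → Fin 3 → ℤ × ℤ :=
  ![![(1, 0), (0, 0), (-1, 0)], ![(-1, 0), (0, 0), (-1, 0)],
    ![(1, 2), (1, 0), (-1, 0)], ![(-1, -2), (1, 0), (-1, 0)],
    ![(1, 2), (0, 1), (-1, 0)], ![(-1, -2), (0, 1), (-1, 0)],
    ![(1, 2), (-1, -1), (-1, 0)], ![(-1, -2), (-1, -1), (-1, 0)],
    ![(1, 0), (0, 0), (0, 0)]]

/-- evaluation of vectors -/
noncomputable def evv (v : Fin 3 → ℤ × ℤ) : Fin 3 → ℂ := fun i => ev (v i)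

/-- dot product of vectors of Eisenstein integers -/
def dz (v w : Fin 3 → ℤ × ℤ) : ℤ × ℤ := em (v 0) (w 0) + em (v 1) (w 1) + em (v 2) (w 2)

theorem evv_dot (v w : Fin 3 → ℤ × ℤ) : evv v ⬝ᵥ evv w = ev (dz v w) := by
  simp only [dotProduct, Fin.sum_univ_three, evv, dz, ev_add, ev_em]

theorem evv_dot_eq_zero (v w : Fin 3 → ℤ × ℤ) : evv v ⬝ᵥ evv w = 0 ↔ dz v w = (0, 0) := by
  rw [evv_dot, ev_eq_zero]

/-- cross product -/
def cz (v w : Fin 3 → ℤ × ℤ) : Fin 3 → ℤ × ℤ :=
  ![em (v 1) (w 2) - em (v 2) (w 1), em (v 2) (w 0) - em (v 0) (w 2),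
    em (v 0) (w 1) - em (v 1) (w 0)]

theorem evv_cross (v w : Fin 3 → ℤ × ℤ) : crossProduct (evv v) (evv w) = evv (cz v w) := by
  rw [cross_apply]
  funext i
  fin_cases i <;> simp [evv, cz, ev_sub, ev_em]

theorem evv_eq_zero (v : Fin 3 → ℤ × ℤ) : evv v = 0 ↔ ∀ i, v i = (0, 0) := by
  constructor
  · intro h i
    have := congrFun h i
    exact (ev_eq_zero _).mp this
  · intro h
    funext i
    exact (ev_eq_zero _).mpr (h i)

theorem pz_ne (i : Fin 12) : evv (pz i) ≠ 0 := by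
  rw [Ne, evv_eq_zero]
  revert i
  decide

theorem lz_ne (k : Fin 9) : evv (lz k) ≠ 0 := by
  rw [Ne, evv_eq_zero]
  revert k
  decide

/-- the twelve points -/
noncomputable def qq (i : Fin 12) : P2 := Projectivization.mk ℂ (evv (pz i)) (pz_ne i)

/-- the nine lines -/
noncomputable def ll (k : Fin 9) : P2 := Projectivization.mk ℂ (evv (lz k)) (lz_ne k)

/-- the four points on the last line -/
def ee : Fin 4 → Fin 12 := ![8, 9, 10, 11]

theorem inc_iff (i : Fin 12) (k : Fin 9) : (qq i).orthogonal (ll k) ↔ dz (pz i) (lz k) = (0, 0) := by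
  rw [qq, ll, Projectivization.orthogonal_mk, evv_dot_eq_zero]

theorem qq_inj : Function.Injective qq := by
  intro i j h
  rw [qq, qq, Projectivization.mk_eq_mk_iff_crossProduct_eq_zero, evv_cross, evv_eq_zero] at h
  revert h
  revert i j
  decide

theorem ll_inj : Function.Injective ll := by
  intro i j h
  rw [ll, ll, Projectivization.mk_eq_mk_iff_crossProduct_eq_zero, evv_cross, evv_eq_zero] at h
  revert h
  revert i j
  decide

theorem ee_inj : Function.Injective ee := by decide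

/-- any two lines meet in one of the points -/
theorem ll_meet (k k' : Fin 9) : ∃ i, dz (pz i) (lz k) = (0, 0) ∧ dz (pz i) (lz k') = (0, 0) := by
  revert k k'
  decide

/-- the class of a line -/
def cl1 (k : Fin 9) : ℤ × (Fin 12 → ℤ) := (1, fun i => if dz (pz i) (lz k) = (0, 0) then 1 else 0)

theorem clStrict_eq (k : Fin 9) : clStrict qq (ll k) = cl1 k := by
  unfold clStrict cl1
  congr 1
  funext i
  by_cases h : dz (pz i) (lz k) = (0, 0)
  · rw [if_pos h, if_pos ((inc_iff i k).mpr h)]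
  · rw [if_neg h, if_neg (fun h' => h ((inc_iff i k).mp h'))]

/-- computable version of the classes -/
def clsz : Fin 9 ⊕ Fin 4 → ℤ × (Fin 12 → ℤ)
  | Sum.inl k => cl1 k
  | Sum.inr l => clExc (ee l)

theorem cls_eq (c : Fin 9 ⊕ Fin 4) : cls qq ll ee c = clsz c := by
  cases c with
  | inl k => exact clStrict_eq k
  | inr l => rfl

theorem clD_eq : clD qq ll ee = (9, ![3, 3, 3, 3, 3, 3, 3, 3, 2, 2, 2, 2]) := by
  unfold clD
  simp only [cls_eq]
  decide

theorem KD_eq : KV 12 + clD qq ll ee = (6, ![2, 2, 2, 2, 2, 2, 2, 2, 1, 1, 1, 1]) := by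
  rw [clD_eq]
  decide

theorem ip_KD : ip (KV 12) (KV 12 + clD qq ll ee) = 2 := by
  rw [KD_eq]
  decide

theorem ip_KD_KD : ip (KV 12 + clD qq ll ee) (KV 12 + clD qq ll ee) = 0 := by
  rw [KD_eq]
  decide

theorem self_sum : ∑ c, ip (cls qq ll ee c) (cls qq ll ee c) = -31 := by
  simp only [cls_eq]
  decide

/-- computable model of the meeting relation -/
def mt : Fin 9 ⊕ Fin 4 → Fin 9 ⊕ Fin 4 → Bool
  | Sum.inl k, Sum.inr l => dz (pz (ee l)) (lz k) = (0, 0)
  | Sum.inr l, Sum.inl k => dz (pz (ee l)) (lz k) = (0, 0)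
  | Sum.inl _, Sum.inl _ => false
  | Sum.inr _, Sum.inr _ => false

theorem meet_of (c c' : Fin 9 ⊕ Fin 4) (h : c ≠ c') :
    (mt c c' = true ∧ ∃ x, comp qq ll ee c ∩ comp qq ll ee c' = {x}) ∨
    (mt c c' = false ∧ comp qq ll ee c ∩ comp qq ll ee c' = ∅) := by
  rcases c with k | l <;> rcases c' with k' | l'
  · right
    refine ⟨rfl, ?_⟩
    obtain ⟨i, h1, h2⟩ := ll_meet k k'
    exact strict_strict (fun h0 => h (congrArg Sum.inl (ll_inj h0))) ((inc_iff i k).mpr h1)
      ((inc_iff i k').mpr h2)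
  · by_cases h1 : dz (pz (ee l')) (lz k) = (0, 0)
    · left
      refine ⟨by simp [mt, h1], ?_⟩
      exact strict_exc_single qq_inj ((inc_iff _ _).mpr h1)
    · right
      refine ⟨by simp [mt, h1], ?_⟩
      exact strict_exc_empty (fun h' => h1 ((inc_iff _ _).mp h'))
  · rw [Set.inter_comm]
    by_cases h1 : dz (pz (ee l)) (lz k') = (0, 0)
    · left
      refine ⟨by simp [mt, h1], ?_⟩
      exact strict_exc_single qq_inj ((inc_iff _ _).mpr h1)
    · right
      refine ⟨by simp [mt, h1], ?_⟩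
      exact strict_exc_empty (fun h' => h1 ((inc_iff _ _).mp h'))
  · right
    refine ⟨rfl, ?_⟩
    exact exc_exc qq_inj (fun h0 => h (congrArg Sum.inr (ee_inj h0)))

theorem ip_mt (c c' : Fin 9 ⊕ Fin 4) (h : c ≠ c') :
    ip (clsz c) (clsz c') = if mt c c' = true then 1 else 0 := by
  revert h
  revert c c'
  decide

theorem isSNC : IsSNC qq ll ee where
  q_inj := qq_inj
  a_inj := ll_inj
  e_inj := ee_inj
  meet := by
    intro c c' h
    rw [cls_eq, cls_eq, ip_mt c c' h]
    rcases meet_of c c' h with ⟨h1, x, h2⟩ | ⟨h1, h2⟩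
    · rw [h2, h1, Set.ncard_singleton]; rfl
    · rw [h2, h1, Set.ncard_empty]; rfl
  meet_le := by
    intro c c' h
    rcases meet_of c c' h with ⟨h1, x, h2⟩ | ⟨h1, h2⟩
    · rw [h2]; exact Set.subsingleton_singleton
    · rw [h2]; exact Set.subsingleton_empty
  triple := by
    intro c c' c'' h1 h2 h3
    have hl : ∀ k k' : Fin 9, (Sum.inl k : Fin 9 ⊕ Fin 4) ≠ Sum.inl k' →
        comp qq ll ee (Sum.inl k) ∩ comp qq ll ee (Sum.inl k') = ∅ := by
      intro k k' h
      rcases meet_of _ _ h with ⟨h4, _⟩ | ⟨_, h4⟩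
      · exact absurd h4 Bool.false_ne_true
      · exact h4
    have hr : ∀ l l' : Fin 4, (Sum.inr l : Fin 9 ⊕ Fin 4) ≠ Sum.inr l' →
        comp qq ll ee (Sum.inr l) ∩ comp qq ll ee (Sum.inr l') = ∅ := by
      intro k k' h
      rcases meet_of _ _ h with ⟨h4, _⟩ | ⟨_, h4⟩
      · exact absurd h4 Bool.false_ne_true
      · exact h4
    rcases c with k | l <;> rcases c' with k' | l' <;> rcases c'' with k'' | l''
    · rw [hl _ _ h1, Set.empty_inter]
    · rw [hl _ _ h1, Set.empty_inter]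
    · rw [Set.inter_right_comm, hl _ _ h3, Set.empty_inter]
    · rw [Set.inter_assoc, hr _ _ h2, Set.inter_empty]
    · rw [Set.inter_assoc, hl _ _ h2, Set.inter_empty]
    · rw [Set.inter_right_comm, hr _ _ h3, Set.empty_inter]
    · rw [hr _ _ h1, Set.empty_inter]
    · rw [hr _ _ h1, Set.empty_inter]

theorem adj_iff (c c' : Fin 9 ⊕ Fin 4) : (dualGraph qq ll ee).Adj c c' ↔ mt c c' = true := by
  rw [dualGraph, SimpleGraph.fromRel_adj]
  constructor
  · rintro ⟨h, h1 | h1⟩
    · rcases meet_of c c' h with ⟨h2, _⟩ | ⟨_, h2⟩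
      · exact h2
      · rw [h2] at h1
        exact absurd h1 Set.not_nonempty_empty
    · rw [Set.inter_comm] at h1
      rcases meet_of c c' h with ⟨h2, _⟩ | ⟨_, h2⟩
      · exact h2
      · rw [h2] at h1
        exact absurd h1 Set.not_nonempty_empty
  · intro h1
    have h : c ≠ c' := by
      rintro rfl
      cases c <;> simp [mt] at h1
    refine ⟨h, Or.inl ?_⟩
    rcases meet_of c c' h with ⟨_, x, h2⟩ | ⟨h2, _⟩
    · rw [h2]; exact Set.singleton_nonempty x
    · rw [h2] at h1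
      exact absurd h1 (by decide)

theorem self_neg_one (c : Fin 9 ⊕ Fin 4) (h : ip (clsz c) (clsz c) = -1) :
    ∃ c1 c2 c3, c1 ≠ c2 ∧ c2 ≠ c3 ∧ c1 ≠ c3 ∧ mt c c1 = true ∧ mt c c2 = true ∧
      mt c c3 = true := by
  revert h
  revert c
  decide

theorem isMinimal : IsMinimal qq ll ee := by
  intro c hc
  rw [cls_eq] at hc
  obtain ⟨c1, c2, c3, h12, h23, h13, h1, h2, h3⟩ := self_neg_one c hc
  have hsub : ({c1, c2, c3} : Set (Fin 9 ⊕ Fin 4)) ⊆ {c' | (dualGraph qq ll ee).Adj c c'} := by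
    rintro x (rfl | rfl | rfl)
    · exact (adj_iff _ _).mpr h1
    · exact (adj_iff _ _).mpr h2
    · exact (adj_iff _ _).mpr h3
  have h4 := Set.ncard_le_ncard hsub (Set.toFinite _)
  rw [Set.ncard_eq_three.mpr ⟨c1, c2, c3, h12, h13, h23, rfl⟩] at h4
  exact h4

/-- computable dual graph -/
def gz : SimpleGraph (Fin 9 ⊕ Fin 4) where
  Adj c c' := mt c c' = true
  symm := by
    constructor
    intro c c' h
    cases c <;> cases c' <;> simpa [mt] using h
  loopless := by
    constructor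
    intro c h
    cases c <;> simp [mt] at h

instance : DecidableRel gz.Adj := fun c c' => inferInstanceAs (Decidable (mt c c' = true))

theorem graph_eq : dualGraph qq ll ee = gz := by
  ext c c'
  exact adj_iff c c'

theorem gz_conn : gz.Connected := by
  have hroot : ∀ c, gz.Reachable (Sum.inl 8) c := by
    have h1 : ∀ l, gz.Reachable (Sum.inl 8) (Sum.inr l) := by
      intro l
      apply SimpleGraph.Adj.reachable
      change mt _ _ = true
      revert l
      decide
    intro c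
    rcases c with k | l
    · have h2 : ∃ l, gz.Adj (Sum.inr l) (Sum.inl k) := by
        change ∃ l, mt _ _ = true
        revert k
        decide
      obtain ⟨l, hl⟩ := h2
      exact (h1 l).trans hl.reachable
    · exact h1 l
  have : Nonempty (Fin 9 ⊕ Fin 4) := ⟨Sum.inl 0⟩
  exact ⟨fun c c' => (hroot c).symm.trans (hroot c')⟩

theorem gz_card : gz.edgeFinset.card = 12 := by
  decide

theorem isTree : (dualGraph qq ll ee).IsTree := by
  rw [graph_eq, SimpleGraph.isTree_iff_connected_and_card]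
  refine ⟨gz_conn, ?_⟩
  rw [Nat.card_eq_fintype_card, Nat.card_eq_fintype_card, ← SimpleGraph.edgeFinset_card, gz_card]
  rfl

end Pool.Agent.Y209.QA
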