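import Pool.Agent.Y209.Geo.PT

/-!
# Open surfaces obtained from the projective plane by blowing up points

All varieties are over `ℂ`. `P2` is the complex projective plane, with the quotient topology;
it also serves as the dual plane, a point `a` of it being the line `{x | x ⬝ a = 0}`, so that
`x.orthogonal a` (Mathlib) says that the point `x` lies on the line `a`.

For points `q i` of the plane, `Bl q` is the blow-up `V` of the plane at the points `q i`: it is
the set of all `(x, (ℓ i))`, where `x` is a point and `ℓ i` is a line through `q i` and `x`. It is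
closed in a product of projective planes, and carries the subspace topology. The curves considered
on `V` are the strict transforms of lines and the exceptional curves.

The Picard group of `V` is free with basis the class `H` of a line and the classes `E i` of the
exceptional curves, the intersection form being `diag (1, -1, …, -1)`; the class `d H - ∑ m i E i`
is recorded as the pair `(d, m)`. In particular the canonical class `-3 H + ∑ E i` is
`(-3, -1, …, -1)`, the strict transform of a line `a` has the class `H - ∑ E i`, the sum over
the points `q i` on `a`, and the exceptional curve over `q i` has the class `E i`.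
-/

namespace Pool.Agent.Y209.QA

open scoped LinearAlgebra.Projectivization
open Pool.Agent.Y209.Geo (P2)
open CategoryTheory AlgebraicTopology Limits MvPolynomial

/-- The blow-up `V` of the complex projective plane at the points `q i`: pairs of a point `x` and
a family of lines `ℓ i`, the line `ℓ i` passing through `q i` and `x`. -/
abbrev Bl {n : ℕ} (q : Fin n → P2) : Type :=
  {b : P2 × (Fin n → P2) // ∀ i, (q i).orthogonal (b.2 i) ∧ b.1.orthogonal (b.2 i)}

/-- The strict transform of the line `a`: over the points `q i` on `a`, it consists of the
direction of `a` only. -/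
def strict {n : ℕ} (q : Fin n → P2) (a : P2) : Set (Bl q) :=
  {b | b.1.1.orthogonal a ∧ ∀ i, (q i).orthogonal a → b.1.2 i = a}

/-- The exceptional curve over the point `q i`. -/
def exc {n : ℕ} (q : Fin n → P2) (i : Fin n) : Set (Bl q) := {b | b.1.1 = q i}

/-- The intersection form on the Picard group of `V`. -/
def ip {n : ℕ} (x y : ℤ × (Fin n → ℤ)) : ℤ := x.1 * y.1 - ∑ i, x.2 i * y.2 i

/-- The canonical class of `V`. -/
def KV (n : ℕ) : ℤ × (Fin n → ℤ) := (-3, fun _ => -1)

open Classical in
/-- The class of the strict transform of the line `a`. -/
noncomputable def clStrict {n : ℕ} (q : Fin n → P2) (a : P2) : ℤ × (Fin n → ℤ) :=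
  (1, fun i => if (q i).orthogonal a then 1 else 0)

/-- The class of the exceptional curve over the point `q i`. -/
def clExc {n : ℕ} (i : Fin n) : ℤ × (Fin n → ℤ) := (0, fun k => if k = i then -1 else 0)

section Boundary

variable {n r s : ℕ} (q : Fin n → P2) (a : Fin r → P2) (e : Fin s → Fin n)

/-- The components of the boundary divisor `D`: the strict transforms of the lines `a k` and the
exceptional curves over the points `q (e l)`. -/
def comp : Fin r ⊕ Fin s → Set (Bl q)
  | Sum.inl k => strict q (a k)
  | Sum.inr l => exc q (e l)

/-- The classes of the components of `D`. -/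
noncomputable def cls : Fin r ⊕ Fin s → ℤ × (Fin n → ℤ)
  | Sum.inl k => clStrict q (a k)
  | Sum.inr l => clExc (e l)

/-- The class of `D`. -/
noncomputable def clD : ℤ × (Fin n → ℤ) := ∑ c, cls q a e c

/-- The open surface `X = V ∖ D`. -/
abbrev Surf : Type := {b : Bl q // ∀ c, b ∉ comp q a e c}

/-- The dual graph of `D`. -/
def dualGraph : SimpleGraph (Fin r ⊕ Fin s) :=
  SimpleGraph.fromRel fun c c' => (comp q a e c ∩ comp q a e c').Nonempty

/-- `D` is a simple normal crossings divisor: the blown up points are distinct, so are the
components of `D`, which are smooth rational curves, any two of them meet in at most one point,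
and transversally, and no three of them have a common point. -/
structure IsSNC : Prop where
  q_inj : Function.Injective q
  a_inj : Function.Injective a
  e_inj : Function.Injective e
  meet : ∀ c c', c ≠ c' → ((comp q a e c ∩ comp q a e c').ncard : ℤ) =
    ip (cls q a e c) (cls q a e c')
  meet_le : ∀ c c', c ≠ c' → (comp q a e c ∩ comp q a e c').Subsingleton
  triple : ∀ c c' c'', c ≠ c' → c' ≠ c'' → c ≠ c'' →
    comp q a e c ∩ comp q a e c' ∩ comp q a e c'' = ∅

/-- `D` is minimal: each component of self-intersection `-1` meets at least three other
components. -/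
def IsMinimal : Prop := ∀ c, ip (cls q a e c) (cls q a e c) = -1 →
  3 ≤ {c' | (dualGraph q a e).Adj c c'}.ncard

end Boundary

/-- `X` is `ℚ`-acyclic: `H_k(X; ℚ) = 0` for all `k > 0` (Mathlib's singular homology). -/
def QAcyclic (X : Type) [TopologicalSpace X] : Prop :=
  ∀ k : ℕ, 0 < k → IsZero (((singularHomologyFunctor (ModuleCat.{0} ℚ) k).obj
    (ModuleCat.of ℚ ℚ)).obj (TopCat.of X))

/-- The global sections of the line bundle of class `(d, m)` on `V`: the plane forms of degree `d`
whose multiplicity at `q i` is at least `m i`, that is, which lie in the `m i`-th power of the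
ideal of (a representative of) `q i`; only the form `0` if `d < 0`, and no condition at `q i` if
`m i ≤ 0`. -/
noncomputable def H0 {n : ℕ} (q : Fin n → P2) (x : ℤ × (Fin n → ℤ)) :
    Submodule ℂ (MvPolynomial (Fin 3) ℂ) :=
  (if 0 ≤ x.1 then homogeneousSubmodule (Fin 3) ℂ x.1.toNat else ⊥) ⊓
    ⨅ i, Submodule.restrictScalars ℂ (RingHom.ker (eval (q i).rep) ^ (x.2 i).toNat)

/-- `κ̄(X) = 2`: the logarithmic plurigenera `h⁰(V, N (K + D))` grow like `N ^ 2`. -/
def LogGeneralType {n r s : ℕ} (q : Fin n → P2) (a : Fin r → P2) (e : Fin s → Fin n) : Prop :=
  ∃ c : ℝ, 0 < c ∧ ∃ᶠ N : ℕ in Filter.atTop,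
    c * (N : ℝ) ^ 2 ≤ Module.finrank ℂ (H0 q (N • (KV n + clD q a e)))

end Pool.Agent.Y209.QA
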