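import Pool.Agent.Y209.QA.Defs

/-!
# The dual of the second cohomology of the logarithmic tangent sheaf

By Serre duality, `H²(V, Θ_V⟨D⟩)` is dual to `H⁰(V, Ω¹_V(log D) ⊗ K_V)`, as `Θ_V⟨D⟩` is the dual
of `Ω¹_V(log D)`. Outside the blown up points, a section of `Ω¹_V(log D) ⊗ K_V` is
`(η / Π) ⊗ Ω`, where `Π` is the product of the linear forms of the `r` lines `a k`,
`Ω = x dy ∧ dz - y dx ∧ dz + z dx ∧ dy`, and `η = P 0 dx + P 1 dy + P 2 dz` with forms `P j` of
degree `r - 4` (the total degree is `0`), the contraction of `η` with the Euler field being `0`.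
-/

namespace Pool.Agent.Y209.QA

open scoped LinearAlgebra.Projectivization
open Pool.Agent.Y209.Geo (P2)
open MvPolynomial

/-- The linear form (of a representative) of a line. -/
noncomputable def linForm (a : P2) : MvPolynomial (Fin 3) ℂ := ∑ j, C (a.rep j) * X j

/-- The ideal (of a representative) of a point. -/
noncomputable def pointIdeal (x : P2) : Ideal (MvPolynomial (Fin 3) ℂ) :=
  RingHom.ker (eval x.rep)

/-- The number of the lines `a k` through the point `x`. -/
noncomputable def numLines {r : ℕ} (a : Fin r → P2) (x : P2) : ℕ := {k | x.orthogonal (a k)}.ncard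

/-- The global sections `η = P 0 dx + P 1 dy + P 2 dz` (see above) of `Ω¹_V(log D) ⊗ K_V`.
* `P j` is a form of degree `r - 4`, and the contraction with the Euler field is `0`;
* `(η / Π) ⊗ Ω` has logarithmic poles along the line `a k`: its form divides `d(a k) ∧ η`;
* at a blown up point `q i`, on `m` of the lines, the pull-back of `(η / Π) ⊗ Ω` is a section of
  `Ω¹_V(log D) ⊗ K_V` along the exceptional curve: when this curve is in `D`, this means that the
  `P j` have multiplicity at least `m - 2` at `q i`; when it is not, that moreover the contraction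
  of `η` with the constant vector `q i` has multiplicity at least `m` there. -/
noncomputable def H0Dual {n r s : ℕ} (q : Fin n → P2) (a : Fin r → P2) (e : Fin s → Fin n) :
    Submodule ℂ (Fin 3 → MvPolynomial (Fin 3) ℂ) where
  carrier := {P | (∀ j, P j ∈ homogeneousSubmodule (Fin 3) ℂ (r - 4)) ∧
    ∑ j, X j * P j = 0 ∧
    (∀ k j j', C ((a k).rep j) * P j' - C ((a k).rep j') * P j ∈ Ideal.span {linForm (a k)}) ∧
    (∀ i j, P j ∈ pointIdeal (q i) ^ (numLines a (q i) - 2)) ∧
    ∀ i, i ∉ Set.range e → ∑ j, C ((q i).rep j) * P j ∈ pointIdeal (q i) ^ numLines a (q i)}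
  add_mem' := by
    rintro P Q ⟨h1, h2, h3, h4, h5⟩ ⟨g1, g2, g3, g4, g5⟩
    refine ⟨fun j => Submodule.add_mem _ (h1 j) (g1 j), ?_, ?_, ?_, ?_⟩
    · simp only [Pi.add_apply, mul_add, Finset.sum_add_distrib, h2, g2, add_zero]
    · intro k j j'
      have := Ideal.add_mem _ (h3 k j j') (g3 k j j')
      have e : C ((a k).rep j) * (P + Q) j' - C ((a k).rep j') * (P + Q) j =
          C ((a k).rep j) * P j' - C ((a k).rep j') * P j +
            (C ((a k).rep j) * Q j' - C ((a k).rep j') * Q j) := by
        simp only [Pi.add_apply]; ring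
      rw [e]; exact this
    · intro i j
      exact Ideal.add_mem _ (h4 i j) (g4 i j)
    · intro i hi
      have := Ideal.add_mem _ (h5 i hi) (g5 i hi)
      simp only [Pi.add_apply, mul_add, Finset.sum_add_distrib]
      exact this
  zero_mem' := by
    refine ⟨fun j => Submodule.zero_mem _, by simp, ?_, ?_, ?_⟩
    · intro k j j'; simp
    · intro i j; simp
    · intro i _; simp
  smul_mem' := by
    rintro c P ⟨h1, h2, h3, h4, h5⟩
    refine ⟨fun j => Submodule.smul_mem _ c (h1 j), ?_, ?_, ?_, ?_⟩
    · simp only [Pi.smul_apply, smul_eq_C_mul]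
      have : ∑ j, X j * (C c * P j) = C c * ∑ j, X j * P j := by
        rw [Finset.mul_sum]
        exact Finset.sum_congr rfl fun j _ => by ring
      rw [this, h2, mul_zero]
    · intro k j j'
      have e : C ((a k).rep j) * (c • P) j' - C ((a k).rep j') * (c • P) j =
          C c * (C ((a k).rep j) * P j' - C ((a k).rep j') * P j) := by
        simp only [Pi.smul_apply, smul_eq_C_mul]; ring
      rw [e]; exact Ideal.mul_mem_left _ _ (h3 k j j')
    · intro i j
      simp only [Pi.smul_apply, smul_eq_C_mul]
      exact Ideal.mul_mem_left _ _ (h4 i j)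
    · intro i hi
      have e : ∑ j, C ((q i).rep j) * (c • P) j = C c * ∑ j, C ((q i).rep j) * P j := by
        rw [Finset.mul_sum]
        refine Finset.sum_congr rfl fun j _ => ?_
        simp only [Pi.smul_apply, smul_eq_C_mul]; ring
      rw [e]; exact Ideal.mul_mem_left _ _ (h5 i hi)

end Pool.Agent.Y209.QA
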