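import Pool.Agent.Y209.QA.DefsR
import Pool.Agent.Y209.QA.Cfg

/-! Two independent sections of `Ω¹_V(log D) ⊗ K_V` for the dual Hesse arrangement. -/

namespace Pool.Agent.Y209.QA

open scoped LinearAlgebra.Projectivization
open Pool.Agent.Y209.Geo (P2)
open MvPolynomial

/-- rows of the change of coordinates -/
def Mr : Fin 3 → Fin 3 → ℤ := ![![3, 1, -1], ![-3, 1, -1], ![0, 1, 2]]

/-- new coordinates, in which the lines are `(x³ - y³) (y³ - z³) (z³ - x³) = 0` -/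
noncomputable def Hc (i : Fin 3) : MvPolynomial (Fin 3) ℂ := ∑ j, C ((Mr i j : ℤ) : ℂ) * X j

theorem sum_rot {R : Type*} [AddCommGroup R] (f : Fin 3 → R) (i : Fin 3) :
    ∑ m, f m = f i + f (i + 1) + f (i + 2) := by
  fin_cases i
  · simp [Fin.sum_univ_three]
  · simp only [Fin.sum_univ_three, Fin.mk_one]
    change f 0 + f 1 + f 2 = f 1 + f 2 + f 0
    abel
  · simp only [Fin.sum_univ_three, Fin.reduceFinMk]
    change f 0 + f 1 + f 2 = f 2 + f 0 + f 1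
    abel

/-- the form with given coefficients in the new coordinates -/
noncomputable def Pc (Ph : Fin 3 → MvPolynomial (Fin 3) ℂ) (j : Fin 3) : MvPolynomial (Fin 3) ℂ :=
  ∑ m, C ((Mr m j : ℤ) : ℂ) * Ph m

/-- table for the lines: the index -/
def li : Fin 9 → Fin 3 := ![2, 1, 0, 0, 2, 1, 1, 2, 0]

/-- table for the lines: the ratio -/
def lg : Fin 9 → ℤ × ℤ :=
  ![(1, 0), (1, 0), (0, 1), (-1, -1), (0, 1), (-1, -1), (0, 1), (-1, -1), (1, 0)]

/-- table for the lines: the scalar -/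
def ls : Fin 9 → ℤ × ℤ :=
  ![(-3, 0), (3, 0), (1, -1), (2, 1), (-2, -1), (-1, -2), (1, 2), (-1, 1), (6, 0)]

theorem lg_cube (k : Fin 9) : em (lg k) (em (lg k) (lg k)) = (1, 0) := by
  revert k; decide

theorem ls_ne (k : Fin 9) : ls k ≠ (0, 0) := by
  revert k; decide

theorem l_table (k : Fin 9) (j : Fin 3) :
    em (ls k) (lz k j) = (Mr (li k) j, 0) - em (lg k) (Mr (li k + 1) j, 0) := by
  revert k j; decide

theorem ev_int (n : ℤ) : ev (n, 0) = (n : ℂ) := by simp [ev]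

theorem ev_one' : ev (1, 0) = 1 := by simp [ev]

theorem ev_lg_cube (k : Fin 9) : ev (lg k) ^ 3 = 1 := by
  have h := congrArg ev (lg_cube k)
  rw [ev_em, ev_em, ev_one'] at h
  rw [← h]; ring

theorem l_table' (k : Fin 9) (j : Fin 3) :
    ev (ls k) * evv (lz k) j = (Mr (li k) j : ℂ) - ev (lg k) * (Mr (li k + 1) j : ℂ) := by
  rw [evv, ← ev_em, l_table, ev_sub, ev_em, ev_int, ev_int]

theorem ev_ls_ne (k : Fin 9) : ev (ls k) ≠ 0 := fun h => ls_ne k ((ev_eq_zero _).mp h)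

/-- representatives of the lines -/
theorem rep_ll (k : Fin 9) : ∃ c : ℂ, c ≠ 0 ∧ ∀ j, (ll k).rep j =
    c * ((Mr (li k) j : ℂ) - ev (lg k) * (Mr (li k + 1) j : ℂ)) := by
  obtain ⟨a, ha⟩ := Projectivization.exists_smul_eq_mk_rep ℂ (evv (lz k)) (lz_ne k)
  have hk := ev_ls_ne k
  refine ⟨(a : ℂ) * (ev (ls k))⁻¹, mul_ne_zero a.ne_zero (inv_ne_zero hk), fun j => ?_⟩
  have h1 : (ll k).rep j = (a : ℂ) * evv (lz k) j := by
    unfold ll
    rw [← ha]
    rfl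
  rw [h1, ← l_table', mul_assoc, inv_mul_cancel_left₀ hk]

theorem linForm_ll (k : Fin 9) : ∃ c : ℂ, c ≠ 0 ∧
    (∀ j, (ll k).rep j = c * ((Mr (li k) j : ℂ) - ev (lg k) * (Mr (li k + 1) j : ℂ))) ∧
    linForm (ll k) = C c * (Hc (li k) - C (ev (lg k)) * Hc (li k + 1)) := by
  obtain ⟨c, hc, h⟩ := rep_ll k
  refine ⟨c, hc, h, ?_⟩
  unfold linForm Hc
  rw [Finset.mul_sum, ← Finset.sum_sub_distrib, Finset.mul_sum]
  refine Finset.sum_congr rfl fun j _ => ?_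
  rw [h j]
  simp only [map_mul, map_sub]
  ring

/-- conditions on the coefficients in the new coordinates -/
structure Good (Ph : Fin 3 → MvPolynomial (Fin 3) ℂ) : Prop where
  hom : ∀ i, (Ph i).IsHomogeneous 5
  euler : ∑ i, Hc i * Ph i = 0
  line1 : ∀ (i : Fin 3) (g : ℂ), g ^ 3 = 1 → Ph (i + 2) ∈ Ideal.span {Hc i - C g * Hc (i + 1)}
  line2 : ∀ (i : Fin 3) (g : ℂ), g ^ 3 = 1 →
    C g * Ph i + Ph (i + 1) ∈ Ideal.span {Hc i - C g * Hc (i + 1)}
  pt1 : ∀ (I : Ideal (MvPolynomial (Fin 3) ℂ)) (α β : ℂ), α ^ 3 = 1 → β ^ 3 = 1 →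
    Hc 1 - C α * Hc 0 ∈ I → Hc 2 - C β * Hc 0 ∈ I →
    Ph 0 + C α * Ph 1 + C β * Ph 2 ∈ I ^ 3
  pt1' : ∀ (I : Ideal (MvPolynomial (Fin 3) ℂ)) (α β : ℂ), α ^ 3 = 1 → β ^ 3 = 1 →
    Hc 1 - C α * Hc 0 ∈ I → Hc 2 - C β * Hc 0 ∈ I → ∀ i, Ph i ∈ I
  pt2 : ∀ (I : Ideal (MvPolynomial (Fin 3) ℂ)) (i : Fin 3), Hc (i + 1) ∈ I → Hc (i + 2) ∈ I →
    Ph i ∈ I ^ 3
  pt2' : ∀ (I : Ideal (MvPolynomial (Fin 3) ℂ)) (i : Fin 3), Hc (i + 1) ∈ I → Hc (i + 2) ∈ I →
    ∀ m, Ph m ∈ I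

theorem line_key {R : Type*} [CommRing R] (a b c a' b' c' g p q r : R) :
    (a - g * b) * (a' * p + b' * q + c' * r) - (a' - g * b') * (a * p + b * q + c * r) =
      (a * b' - a' * b) * (g * p + q) + ((a - g * b) * c' - (a' - g * b') * c) * r := by
  ring

theorem Good.line {Ph : Fin 3 → MvPolynomial (Fin 3) ℂ} (h : Good Ph) (k : Fin 9) (j j' : Fin 3) :
    C ((ll k).rep j) * Pc Ph j' - C ((ll k).rep j') * Pc Ph j ∈
      Ideal.span {linForm (ll k)} := by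
  obtain ⟨c, hc, hr, hl⟩ := linForm_ll k
  have hg := ev_lg_cube k
  have hspan : Ideal.span {linForm (ll k)} =
      Ideal.span {Hc (li k) - C (ev (lg k)) * Hc (li k + 1)} := by
    rw [hl]
    apply Ideal.span_singleton_mul_left_unit
    exact (isUnit_iff_ne_zero.mpr hc).map C
  rw [hspan]
  have e : C ((ll k).rep j) * Pc Ph j' - C ((ll k).rep j') * Pc Ph j =
      C c * ((C (Mr (li k) j : ℂ) * C (Mr (li k + 1) j' : ℂ) -
        C (Mr (li k) j' : ℂ) * C (Mr (li k + 1) j : ℂ)) *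
        (C (ev (lg k)) * Ph (li k) + Ph (li k + 1)) +
        ((C (Mr (li k) j : ℂ) - C (ev (lg k)) * C (Mr (li k + 1) j : ℂ)) *
          C (Mr (li k + 2) j' : ℂ) -
          (C (Mr (li k) j' : ℂ) - C (ev (lg k)) * C (Mr (li k + 1) j' : ℂ)) *
          C (Mr (li k + 2) j : ℂ)) * Ph (li k + 2)) := by
    rw [← line_key, hr j, hr j']
    unfold Pc
    rw [sum_rot _ (li k), sum_rot _ (li k)]
    simp only [map_mul, map_sub]
    ring
  rw [e]
  apply Ideal.mul_mem_left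
  apply Ideal.add_mem
  · exact Ideal.mul_mem_left _ _ (h.line2 _ _ hg)
  · exact Ideal.mul_mem_left _ _ (h.line1 _ _ hg)

theorem Good.eul {Ph : Fin 3 → MvPolynomial (Fin 3) ℂ} (h : Good Ph) :
    ∑ j, X j * Pc Ph j = 0 := by
  rw [← h.euler]
  unfold Pc Hc
  simp only [Finset.mul_sum, Finset.sum_mul]
  rw [Finset.sum_comm]
  refine Finset.sum_congr rfl fun i _ => Finset.sum_congr rfl fun j _ => ?_
  ring

theorem Good.homog {Ph : Fin 3 → MvPolynomial (Fin 3) ℂ} (h : Good Ph) (j : Fin 3) :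
    Pc Ph j ∈ homogeneousSubmodule (Fin 3) ℂ (9 - 4) := by
  rw [mem_homogeneousSubmodule]
  unfold Pc
  apply IsHomogeneous.sum
  intro m _
  have := (isHomogeneous_C (Fin 3) ((Mr m j : ℤ) : ℂ)).mul (h.hom m)
  simpa using this

/-- new coordinates of a point -/
def hz (m : Fin 3) (v : Fin 3 → ℤ × ℤ) : ℤ × ℤ :=
  em (Mr m 0, 0) (v 0) + em (Mr m 1, 0) (v 1) + em (Mr m 2, 0) (v 2)

theorem eval_Hc (m : Fin 3) (v : Fin 3 → ℤ × ℤ) (c : ℂ) :
    eval (c • evv v) (Hc m) = c * ev (hz m v) := by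
  simp only [Hc, hz, map_add, map_mul, eval_C, eval_X, Fin.sum_univ_three, ev_add, ev_em, ev_int,
    Pi.smul_apply, smul_eq_mul, evv]
  ring

/-- table for the points: the first ratio -/
def pa : Fin 12 → ℤ × ℤ :=
  ![(-1, -1), (0, 1), (0, 0), (0, 1), (-1, -1), (0, 0), (-1, -1), (0, 1), (1, 0), (0, 0), (1, 0),
    (1, 0)]

/-- table for the points: the second ratio -/
def pb : Fin 12 → ℤ × ℤ :=
  ![(0, 1), (-1, -1), (0, 0), (0, 1), (-1, -1), (0, 0), (1, 0), (1, 0), (1, 0), (0, 0), (0, 1),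
    (-1, -1)]

theorem p_table (i : Fin 12) :
    (em (pa i) (em (pa i) (pa i)) = (1, 0) ∧ em (pb i) (em (pb i) (pb i)) = (1, 0) ∧
      hz 1 (pz i) = em (pa i) (hz 0 (pz i)) ∧ hz 2 (pz i) = em (pb i) (hz 0 (pz i))) ∨
    ∃ m : Fin 3, hz (m + 1) (pz i) = (0, 0) ∧ hz (m + 2) (pz i) = (0, 0) := by
  revert i; decide

theorem rep_qq (i : Fin 12) : ∃ c : ℂ, (qq i).rep = c • evv (pz i) := by
  obtain ⟨a, ha⟩ := Projectivization.exists_smul_eq_mk_rep ℂ (evv (pz i)) (pz_ne i)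
  exact ⟨a, ha.symm⟩

theorem cube_of {x : ℤ × ℤ} (h : em x (em x x) = (1, 0)) : ev x ^ 3 = 1 := by
  have h := congrArg ev h
  rw [ev_em, ev_em, ev_one'] at h
  rw [← h]; ring

theorem contract (Ph : Fin 3 → MvPolynomial (Fin 3) ℂ) (v : Fin 3 → ℂ) :
    ∑ j, C (v j) * Pc Ph j = ∑ m, C (eval v (Hc m)) * Ph m := by
  unfold Pc Hc
  simp only [map_sum, map_mul, eval_C, eval_X, Finset.mul_sum, Finset.sum_mul]
  rw [Finset.sum_comm]
  refine Finset.sum_congr rfl fun i _ => Finset.sum_congr rfl fun j _ => ?_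
  ring

theorem Good.point {Ph : Fin 3 → MvPolynomial (Fin 3) ℂ} (h : Good Ph) (i : Fin 12) :
    (∀ j, Pc Ph j ∈ pointIdeal (qq i)) ∧
      ∑ j, C ((qq i).rep j) * Pc Ph j ∈ pointIdeal (qq i) ^ 3 := by
  obtain ⟨c, hc⟩ := rep_qq i
  have hev : ∀ m, eval (qq i).rep (Hc m) = c * ev (hz m (pz i)) := by
    intro m
    rw [hc, eval_Hc]
  rw [contract]
  rcases p_table i with ⟨h1, h2, h3, h4⟩ | ⟨m, h1, h2⟩
  · have g1 : Hc 1 - C (ev (pa i)) * Hc 0 ∈ pointIdeal (qq i) := by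
      rw [pointIdeal, RingHom.mem_ker, map_sub, map_mul, eval_C, hev, hev, h3, ev_em]
      ring
    have g2 : Hc 2 - C (ev (pb i)) * Hc 0 ∈ pointIdeal (qq i) := by
      rw [pointIdeal, RingHom.mem_ker, map_sub, map_mul, eval_C, hev, hev, h4, ev_em]
      ring
    constructor
    · intro j
      exact Ideal.sum_mem _ fun m _ => Ideal.mul_mem_left _ _
        (h.pt1' _ _ _ (cube_of h1) (cube_of h2) g1 g2 m)
    · have e : ∑ m, C (eval (qq i).rep (Hc m)) * Ph m = C (c * ev (hz 0 (pz i))) *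
          (Ph 0 + C (ev (pa i)) * Ph 1 + C (ev (pb i)) * Ph 2) := by
        rw [Fin.sum_univ_three, hev, hev, hev, h3, h4, ev_em, ev_em]
        simp only [map_mul]
        ring
      rw [e]
      exact Ideal.mul_mem_left _ _ (h.pt1 _ _ _ (cube_of h1) (cube_of h2) g1 g2)
  · have g1 : Hc (m + 1) ∈ pointIdeal (qq i) := by
      rw [pointIdeal, RingHom.mem_ker, hev, h1, (ev_eq_zero _).mpr rfl, mul_zero]
    have g2 : Hc (m + 2) ∈ pointIdeal (qq i) := by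
      rw [pointIdeal, RingHom.mem_ker, hev, h2, (ev_eq_zero _).mpr rfl, mul_zero]
    constructor
    · intro j
      exact Ideal.sum_mem _ fun m' _ => Ideal.mul_mem_left _ _ (h.pt2' _ m g1 g2 m')
    · rw [sum_rot _ m, hev, hev, hev, h1, h2, (ev_eq_zero _).mpr rfl]
      simp only [mul_zero, map_zero, zero_mul, add_zero]
      exact Ideal.mul_mem_left _ _ (h.pt2 _ m g1 g2)

theorem numLines_eq (i : Fin 12) : numLines ll (qq i) = 3 := by
  unfold numLines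
  have e : {k | (qq i).orthogonal (ll k)} =
      ((Finset.univ.filter fun k : Fin 9 => dz (pz i) (lz k) = (0, 0)) : Set (Fin 9)) := by
    ext k
    simp [inc_iff]
  rw [e, Set.ncard_coe_finset]
  clear e
  revert i
  decide

theorem Good.mem {Ph : Fin 3 → MvPolynomial (Fin 3) ℂ} (h : Good Ph) :
    Pc Ph ∈ H0Dual qq ll ee := by
  refine ⟨h.homog, h.eul, h.line, ?_, ?_⟩
  · intro i j
    rw [numLines_eq]
    have := (h.point i).1 j
    simpa using this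
  · intro i _
    rw [numLines_eq]
    exact (h.point i).2

end Pool.Agent.Y209.QA
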