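import Pool.Agent.Y209.QA.Defs

/-! General facts on the curves on the blow-ups. -/

namespace Pool.Agent.Y209.QA

open scoped LinearAlgebra.Projectivization
open Pool.Agent.Y209.Geo (P2)

/-- two distinct points lie on one line only -/
theorem line_unique {x y a b : P2} (h : x ≠ y) (h1 : x.orthogonal a) (h2 : y.orthogonal a)
    (h3 : x.orthogonal b) (h4 : y.orthogonal b) : a = b := by
  classical
  revert h h1 h2 h3 h4
  refine Projectivization.ind (fun v hv => ?_) x
  refine Projectivization.ind (fun w hw => ?_) y
  refine Projectivization.ind (fun c hc => ?_) a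
  refine Projectivization.ind (fun d hd => ?_) b
  intro h h1 h2 h3 h4
  rw [Projectivization.orthogonal_mk] at h1 h2 h3 h4
  have hvw : crossProduct v w ≠ 0 := fun h0 =>
    h ((Projectivization.mk_eq_mk_iff_crossProduct_eq_zero hv hw).mpr h0)
  have key : ∀ u : Fin 3 → ℂ, v ⬝ᵥ u = 0 → w ⬝ᵥ u = 0 → crossProduct (crossProduct v w) u = 0 := by
    intro u e1 e2
    rw [cross_cross_eq_smul_sub_smul, e1, e2]
    simp
  have e1 := (Projectivization.mk_eq_mk_iff_crossProduct_eq_zero hvw hc).mpr (key c h1 h2)
  have e2 := (Projectivization.mk_eq_mk_iff_crossProduct_eq_zero hvw hd).mpr (key d h3 h4)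
  rw [← e1, ← e2]

/-- through two distinct points passes a line -/
theorem line_exists {x y : P2} (h : x ≠ y) : ∃ a : P2, x.orthogonal a ∧ y.orthogonal a := by
  classical
  exact ⟨Projectivization.cross x y, Projectivization.orthogonal_cross_left h,
    Projectivization.orthogonal_cross_right h⟩

/-- two distinct lines have one common point only -/
theorem point_unique {x y a b : P2} (h : a ≠ b) (h1 : x.orthogonal a) (h2 : x.orthogonal b)
    (h3 : y.orthogonal a) (h4 : y.orthogonal b) : x = y := by
  rw [Projectivization.orthogonal_comm] at h1 h2 h3 h4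
  exact line_unique h h1 h2 h3 h4

variable {n : ℕ} {q : Fin n → P2}

/-- strict transforms of two lines meeting in a blown up point are disjoint -/
theorem strict_strict {a b : P2} (h : a ≠ b) {i : Fin n} (ha : (q i).orthogonal a)
    (hb : (q i).orthogonal b) : strict q a ∩ strict q b = ∅ := by
  ext x
  simp only [Set.mem_inter_iff, Set.mem_empty_iff_false, iff_false, not_and]
  intro h1 h2
  exact h ((h1.2 i ha).symm.trans (h2.2 i hb))

theorem exc_exc (hq : Function.Injective q) {i j : Fin n} (h : i ≠ j) : exc q i ∩ exc q j = ∅ := by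
  ext x
  simp only [Set.mem_inter_iff, Set.mem_empty_iff_false, iff_false, not_and]
  intro h1 h2
  exact h (hq (h1.symm.trans h2))

theorem strict_exc_empty {a : P2} {i : Fin n} (h : ¬ (q i).orthogonal a) :
    strict q a ∩ exc q i = ∅ := by
  ext x
  simp only [Set.mem_inter_iff, Set.mem_empty_iff_false, iff_false, not_and]
  intro h1 h2
  apply h
  have h3 : x.1.1 = q i := h2
  rw [← h3]
  exact h1.1

/-- the strict transform of a line meets the exceptional curve over one of its points once -/
theorem strict_exc_single (hq : Function.Injective q) {a : P2} {i : Fin n}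
    (h : (q i).orthogonal a) : ∃ x : Bl q, strict q a ∩ exc q i = {x} := by
  classical
  have hk : ∀ k, k ≠ i → q k ≠ q i := fun k hk h0 => hk (hq h0)
  let l : Fin n → P2 := fun k => if hki : k = i then a else (line_exists (hk k hki)).choose
  have hl : ∀ k, (q k).orthogonal (l k) ∧ (q i).orthogonal (l k) := by
    intro k
    simp only [l]
    split_ifs with hki
    · subst hki; exact ⟨h, h⟩
    · exact (line_exists (hk k hki)).choose_spec
  refine ⟨⟨(q i, l), hl⟩, ?_⟩
  ext x
  simp only [Set.mem_inter_iff, Set.mem_singleton_iff]
  constructor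
  · rintro ⟨h1, h2⟩
    have h3 : x.1.1 = q i := h2
    apply Subtype.ext
    apply Prod.ext
    · exact h3
    · funext k
      by_cases hki : k = i
      · subst hki
        rw [h1.2 k h]
        simp [l]
      · have h4 := x.2 k
        rw [h3] at h4
        exact line_unique (hk k hki) h4.1 h4.2 (hl k).1 (hl k).2
  · rintro rfl
    refine ⟨⟨h, ?_⟩, rfl⟩
    intro k hka
    change l k = a
    by_cases hki : k = i
    · simp [l, hki]
    · exact line_unique (hk k hki) (hl k).1 (hl k).2 hka h

end Pool.Agent.Y209.QA
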