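import Pool.Agent.Y209.QA.Cfg
import Pool.Agent.Y209.Geo.Main
import Pool.Agent.Y209.HB.BridgeQ

/-! Rational acyclicity of the open surface. -/

namespace Pool.Agent.Y209.QA

open scoped LinearAlgebra.Projectivization
open Pool.Agent.Y209.Geo
open Pool.Agent.Y209.HB

theorem ev_inj {x y : ℤ × ℤ} : ev x = ev y ↔ x = y := by
  rw [← sub_eq_zero, ← ev_sub, ev_eq_zero]
  constructor
  · intro h
    have h1 : x - y = 0 := h
    exact sub_eq_zero.mp h1
  · rintro rfl
    exact sub_self x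

theorem ev_one : ev (1, 0) = 1 := by simp [ev]

theorem ev_zero : ev (0, 0) = 0 := by simp [ev]

theorem ev_neg_one : ev (-1, 0) = -1 := by simp [ev]

/-- the affine points -/
def i8 (j : Fin 8) : Fin 12 := Fin.castLE (by decide) j

/-- the affine lines -/
def k8 (k : Fin 8) : Fin 9 := Fin.castLE (by decide) k

/-- affine coordinates of the points -/
noncomputable def pp (j : Fin 8) : ℂ × ℂ := (ev (pz (i8 j) 1), ev (pz (i8 j) 2))

theorem pz_zero (j : Fin 8) : pz (i8 j) 0 = (1, 0) := by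
  revert j; decide

theorem pz_zero' (i : Fin 12) (h : ¬ i.1 < 8) : pz i 0 = (0, 0) ∧ pz i 1 = (1, 0) := by
  revert h; revert i; decide

theorem lz_two (k : Fin 8) : lz (k8 k) 2 = (-1, 0) := by
  revert k; decide

theorem hv_pp (j : Fin 8) : hv (pp j) = evv (pz (i8 j)) := by
  funext i
  fin_cases i
  · simp [hv, evv, pz_zero, ev_one]
  · rfl
  · rfl

theorem evv_three (v : Fin 3 → ℤ × ℤ) : evv v = ![ev (v 0), ev (v 1), ev (v 2)] := by
  funext i
  fin_cases i <;> rfl

theorem qq_i8 (j : Fin 8) (ℓ : P2) : (qq (i8 j)).orthogonal ℓ ↔ dt (hv (pp j)) ℓ = 0 := by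
  have h : hv (pp j) ≠ 0 := by rw [hv_pp]; exact pz_ne _
  have e : qq (i8 j) = Projectivization.mk ℂ (hv (pp j)) h := by
    unfold qq
    congr 1
    exact (hv_pp j).symm
  rw [e, orthogonal_iff_dt]

theorem pz_inj : ∀ j k : Fin 8, pz (i8 j) 1 = pz (i8 k) 1 → pz (i8 j) 2 = pz (i8 k) 2 →
    j = k := by decide

theorem pp_inj : Function.Injective pp := fun j k h =>
  pz_inj j k (ev_inj.mp (congrArg Prod.fst h)) (ev_inj.mp (congrArg Prod.snd h))

/-- the affine lines, with the points on them -/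
noncomputable def lns (k : Fin 8) : Ln pp where
  m := ev (lz (k8 k) 1)
  c := ev (lz (k8 k) 0)
  I := Finset.univ.filter fun j => dz (pz (i8 j)) (lz (k8 k)) = (0, 0)
  hI := by
    intro j
    rw [Finset.mem_filter]
    simp only [Finset.mem_univ, true_and]
    rw [← evv_dot_eq_zero, evv_three, evv_three, pz_zero, lz_two, ev_one, ev_neg_one]
    simp only [dotProduct, Fin.sum_univ_three, Matrix.cons_val_zero, Matrix.cons_val_one,
      Matrix.cons_val, pp]
    constructor
    · intro h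
      linear_combination (-1 : ℂ) * h
    · intro h
      linear_combination (-1 : ℂ) * h
  hne := by
    revert k
    decide

theorem mem_I (j k : Fin 8) : j ∈ (lns k).I ↔ dz (pz (i8 j)) (lz (k8 k)) = (0, 0) := by
  simp [lns]

theorem hab_z : ∀ x y : Fin 8, x ≠ y →
    (lz (k8 x) 1 = lz (k8 y) 1 ∧ lz (k8 x) 0 ≠ lz (k8 y) 0) ∨
    (lz (k8 x) 1 ≠ lz (k8 y) 1 ∧ ∃ j : Fin 8, dz (pz (i8 j)) (lz (k8 x)) = (0, 0) ∧
      dz (pz (i8 j)) (lz (k8 y)) = (0, 0)) := by
  decide

theorem hab (x y : Fin 8) (h : x ≠ y) : ((lns x).m = (lns y).m ∧ (lns x).c ≠ (lns y).c) ∨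
    ((lns x).m ≠ (lns y).m ∧ ∃ j, j ∈ (lns x).I ∧ j ∈ (lns y).I) := by
  rcases hab_z x y h with ⟨h1, h2⟩ | ⟨h1, j, h2, h3⟩
  · left
    exact ⟨congrArg ev h1, fun h0 => h2 (ev_inj.mp h0)⟩
  · right
    exact ⟨fun h0 => h1 (ev_inj.mp h0), j, (mem_I _ _).mpr h2, (mem_I _ _).mpr h3⟩

/-- the incidence matrix -/
def Mz (j k : Fin 8) : ℤ := if dz (pz (i8 j)) (lz (k8 k)) = (0, 0) then 1 else 0

/-- the parallel line -/
def pl : Fin 8 → Fin 8 := ![1, 0, 3, 2, 5, 4, 7, 6]

/-- three times the inverse of the incidence matrix -/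
def Nz (k j : Fin 8) : ℤ := 2 * Mz j k + Mz j (pl k) - 1

theorem NM : ∀ k k' : Fin 8, ∑ j, Nz k j * Mz j k' = if k = k' then 3 else 0 := by decide

theorem MN : ∀ j j' : Fin 8, ∑ k, Mz j k * Nz k j' = if j = j' then 3 else 0 := by decide

theorem M_eq (j k : Fin 8) : (if j ∈ (lns k).I then (1 : ℚ) else 0) = (Mz j k : ℚ) := by
  unfold Mz
  by_cases h : dz (pz (i8 j)) (lz (k8 k)) = (0, 0)
  · rw [if_pos h, if_pos ((mem_I j k).mpr h)]; norm_num
  · rw [if_neg h, if_neg (fun h' => h ((mem_I j k).mp h'))]; norm_num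

theorem Minj (c : Fin 8 → ℚ)
    (h : ∀ x, ∑ j, c j * (if j ∈ (lns x).I then 1 else 0) = 0) : c = 0 := by
  funext j'
  have h1 : ∑ k, (∑ j, c j * (Mz j k : ℚ)) * (Nz k j' : ℚ) = 0 := by
    apply Finset.sum_eq_zero
    intro k _
    have h2 := h k
    simp only [M_eq] at h2
    rw [h2, zero_mul]
  have h3 : ∑ k, (∑ j, c j * (Mz j k : ℚ)) * (Nz k j' : ℚ) =
      ∑ j, c j * ((∑ k, Mz j k * Nz k j' : ℤ) : ℚ) := by
    simp only [Finset.sum_mul]
    rw [Finset.sum_comm]
    refine Finset.sum_congr rfl fun j _ => ?_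
    push_cast
    rw [Finset.mul_sum]
    refine Finset.sum_congr rfl fun k _ => ?_
    ring
  rw [h3] at h1
  simp only [MN] at h1
  have h4 : ∑ j, c j * (((if j = j' then 3 else 0 : ℤ)) : ℚ) = c j' * 3 := by
    rw [Finset.sum_eq_single j']
    · simp
    · intro b _ hb
      simp [hb]
    · intro h; exact absurd (Finset.mem_univ _) h
  rw [h4] at h1
  simpa using h1

theorem Msurj (κ : Fin 8 → ℚ) :
    ∃ c : Fin 8 → ℚ, ∀ x, ∑ j, c j * (if j ∈ (lns x).I then 1 else 0) = κ x := by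
  refine ⟨fun j => ∑ k, κ k * (Nz k j : ℚ) / 3, ?_⟩
  intro x
  simp only [M_eq]
  have h3 : ∑ j, (∑ k, κ k * (Nz k j : ℚ) / 3) * (Mz j x : ℚ) =
      ∑ k, κ k / 3 * ((∑ j, Nz k j * Mz j x : ℤ) : ℚ) := by
    simp only [Finset.sum_mul]
    rw [Finset.sum_comm]
    refine Finset.sum_congr rfl fun k _ => ?_
    push_cast
    rw [Finset.mul_sum]
    refine Finset.sum_congr rfl fun j _ => ?_
    ring
  rw [h3]
  simp only [NM]
  rw [Finset.sum_eq_single x]
  · simp
  · intro b _ hb
    simp [hb]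
  · intro h; exact absurd (Finset.mem_univ _) h

/-- the affine model of the open surface -/
abbrev Aff : Type := ↥(⋃ x, (lns x).L)ᶜ

theorem Aff_Ac (n : ℕ) : Ac Aff (n + 1) := acyclic pp_inj lns hab Minj Msurj n

theorem Ac_of_retract {X Y : Type} [TopologicalSpace X] [TopologicalSpace Y] (f : C(X, Y))
    (g : C(Y, X)) (h : ∀ x, g (f x) = x) {n : ℕ} (hY : Ac Y n) : Ac X n := by
  intro z hz
  have h1 := push_mem_Bdy g n _ (hY _ (push_mem_Cyc f n z hz))
  rw [push_push] at h1
  have h2 : g.comp f = ContinuousMap.id X := ContinuousMap.ext h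
  rwa [h2, push_id] at h1

/-- first coordinate vector -/
def e0 : Fin 3 → ℂ := ![1, 0, 0]

theorem ll_last (x : P2) : x.orthogonal (ll 8) ↔ dt e0 x = 0 := by
  rw [Projectivization.orthogonal_comm]
  have h : e0 ≠ 0 := fun h => one_ne_zero (congrFun h 0)
  have e : ll 8 = Projectivization.mk ℂ e0 h := by
    unfold ll
    congr 1
    rw [evv_three]
    funext i
    fin_cases i <;> simp [lz, ev, e0]
  rw [e, orthogonal_iff_dt]

/-- affine coordinates -/
noncomputable def aff (x : P2) : ℂ × ℂ := (dt e1 x / dt e0 x, dt e2 x / dt e0 x)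

theorem hv_ne (v : ℂ × ℂ) : hv v ≠ 0 := fun h => one_ne_zero (congrFun h 0)

theorem eq_mk_aff (x : P2) (h : dt e0 x ≠ 0) :
    x = Projectivization.mk ℂ (hv (aff x)) (hv_ne _) := by
  conv_lhs => rw [← x.mk_rep]
  rw [Projectivization.mk_eq_mk_iff']
  have h0 : dt e0 x = x.rep 0 := by simp [dt, e0, dotProduct, Fin.sum_univ_three]
  refine ⟨x.rep 0, ?_⟩
  rw [h0] at h
  funext i
  fin_cases i
  · simp [hv]
  · simp only [hv, aff, dt_e1_eq, dt_e2_eq, h0, Pi.smul_apply, smul_eq_mul, Fin.mk_one,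
      Matrix.cons_val_one, Matrix.cons_val_zero]
    field_simp
  · simp only [hv, aff, dt_e1_eq, dt_e2_eq, h0, Pi.smul_apply, smul_eq_mul, Fin.reduceFinMk,
      Matrix.cons_val]
    field_simp

theorem orth_aff (x ℓ : P2) (h : dt e0 x ≠ 0) : x.orthogonal ℓ ↔ dt (hv (aff x)) ℓ = 0 := by
  conv_lhs => rw [eq_mk_aff x h]
  rw [orthogonal_iff_dt]

theorem inf_points (i : Fin 12) : dz (pz i) (lz 8) = (0, 0) ↔ ∃ l, ee l = i := by
  revert i; decide

/-- the open surface misses the last line -/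
theorem surf_aff (b : Surf qq ll ee) : dt e0 b.1.1.1 ≠ 0 := by
  intro h
  rw [← ll_last] at h
  by_cases h1 : ∃ l, b.1.1.1 = qq (ee l)
  · obtain ⟨l, hl⟩ := h1
    exact b.2 (Sum.inr l) hl
  · push Not at h1
    apply b.2 (Sum.inl 8)
    refine ⟨h, ?_⟩
    intro i hi
    obtain ⟨l, rfl⟩ := (inf_points i).mp ((inc_iff i 8).mp hi)
    exact line_unique (h1 l) (b.1.2 (ee l)).2 (b.1.2 (ee l)).1 h hi

/-- evaluation of the equation of a line at an affine point -/
theorem on_line (v : ℂ × ℂ) (k : Fin 8) :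
    (Projectivization.mk ℂ (hv v) (hv_ne v) : P2).orthogonal (ll (k8 k)) ↔
      v.2 - ((lns k).m * v.1 + (lns k).c) = 0 := by
  rw [ll, Projectivization.orthogonal_mk, evv_three, lz_two, ev_neg_one]
  simp only [hv, dotProduct, Fin.sum_univ_three, Matrix.cons_val_zero, Matrix.cons_val_one,
    Matrix.cons_val, lns]
  constructor
  · intro h
    linear_combination (-1 : ℂ) * h
  · intro h
    linear_combination (-1 : ℂ) * h

/-- slope condition and equality with the line -/
theorem slope_line (j k : Fin 8) (hjk : j ∈ (lns k).I) (ℓ : P2) (h1 : dt (hv (pp j)) ℓ = 0) :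
    dt (Pool.Agent.Y209.Geo.Ln.em (lns k).m) ℓ = 0 ↔ ℓ = ll (k8 k) := by
  have hem : Pool.Agent.Y209.Geo.Ln.em (lns k).m ≠ 0 := fun h => one_ne_zero (congrFun h 1)
  have hl : (Projectivization.mk ℂ _ hem : P2).orthogonal (ll (k8 k)) := by
    rw [ll, Projectivization.orthogonal_mk, evv_three, lz_two, ev_neg_one]
    simp only [Pool.Agent.Y209.Geo.Ln.em, dotProduct, Fin.sum_univ_three, Matrix.cons_val_zero,
      Matrix.cons_val_one, Matrix.cons_val, lns]
    ring
  constructor
  · intro h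
    have hne : qq (i8 j) ≠ Projectivization.mk ℂ _ hem := by
      intro h0
      have h2 := (ll_last (qq (i8 j)))
      have h3 : dt e0 (qq (i8 j)) ≠ 0 := by
        rw [qq, dt_mk]
        simp [e0, evv, dotProduct, Fin.sum_univ_three, pz_zero, ev_one]
      apply h3
      rw [h0, dt_mk_eq]
      simp [e0, Pool.Agent.Y209.Geo.Ln.em, dotProduct, Fin.sum_univ_three]
    refine line_unique hne ?_ ?_ ?_ hl
    · rw [qq_i8]; exact h1
    · rw [orthogonal_iff_dt]; exact h
    · rw [inc_iff]; exact (mem_I j k).mp hjk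
  · rintro rfl
    rw [← orthogonal_iff_dt _ hem]
    exact hl

/-- from the open surface to the affine model -/
noncomputable def toB (b : Surf qq ll ee) : Bm pp :=
  ⟨(aff b.1.1.1, fun j => b.1.1.2 (i8 j)), fun j => ⟨(qq_i8 j _).mp (b.1.2 (i8 j)).1,
    (orth_aff _ _ (surf_aff b)).mp (b.1.2 (i8 j)).2⟩⟩

theorem toB_not_L (b : Surf qq ll ee) (k : Fin 8) : toB b ∉ (lns k).L := by
  intro h
  apply b.2 (Sum.inl (k8 k))
  have hx := surf_aff b
  have h1 : b.1.1.1.orthogonal (ll (k8 k)) := by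
    rw [eq_mk_aff _ hx, on_line]
    exact h.1
  refine ⟨h1, ?_⟩
  intro i hi
  by_cases h8 : i.1 < 8
  · have hi8 : i = i8 ⟨i.1, h8⟩ := rfl
    have hjk : (⟨i.1, h8⟩ : Fin 8) ∈ (lns k).I := by
      rw [mem_I]
      exact (inc_iff _ _).mp hi
    rw [hi8]
    refine (slope_line ⟨i.1, h8⟩ k hjk _ ?_).mp (h.2 _ hjk)
    exact (qq_i8 _ _).mp (b.1.2 _).1
  · have hne : b.1.1.1 ≠ qq i := by
      intro h0
      apply hx
      rw [h0, qq, dt_mk_eq]
      simp [e0, evv, dotProduct, Fin.sum_univ_three, (pz_zero' i h8).1, ev_zero]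
    exact line_unique hne (b.1.2 i).2 (b.1.2 i).1 h1 hi

/-- from the open surface to the affine model, continuously -/
noncomputable def toAff : C(Surf qq ll ee, Aff) :=
  ⟨fun b => ⟨toB b, by
    rw [Set.mem_compl_iff, Set.mem_iUnion]
    rintro ⟨k, hk⟩
    exact toB_not_L b k hk⟩, by
    apply Continuous.subtype_mk
    unfold toB
    apply Continuous.subtype_mk
    refine Continuous.prodMk ?_ (by fun_prop)
    refine Continuous.prodMk ?_ ?_
    · exact (continuousOn_ratio e1 e0).comp_continuous (by fun_prop) (fun b => surf_aff b)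
    · exact (continuousOn_ratio e2 e0).comp_continuous (by fun_prop) (fun b => surf_aff b)⟩

/-- the line through a point at infinity and an affine point -/
noncomputable def lv (i : Fin 12) (v : ℂ × ℂ) : Fin 3 → ℂ :=
  ![v.2 - ev (pz i 2) * v.1, ev (pz i 2), -1]

theorem lv_ne (i : Fin 12) (v : ℂ × ℂ) : lv i v ≠ 0 := by
  intro h
  have := congrFun h 2
  simp [lv] at this

/-- the family of lines attached to a point of the affine model -/
noncomputable def fam (y : Bm pp) (i : Fin 12) : P2 :=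
  if h : i.1 < 8 then y.1.2 ⟨i.1, h⟩ else Projectivization.mk ℂ (lv i y.1.1) (lv_ne _ _)

theorem fam_mem (y : Bm pp) (i : Fin 12) : (qq i).orthogonal (fam y i) ∧
    (Projectivization.mk ℂ (hv y.1.1) (hv_ne _) : P2).orthogonal (fam y i) := by
  unfold fam
  split_ifs with h
  · refine ⟨?_, ?_⟩
    · change (qq (i8 ⟨i.1, h⟩)).orthogonal _
      exact (qq_i8 ⟨i.1, h⟩ _).mpr (y.2 ⟨i.1, h⟩).1
    · rw [orthogonal_iff_dt]
      exact (y.2 _).2
  · refine ⟨?_, ?_⟩
    · rw [qq, Projectivization.orthogonal_mk, evv_three, (pz_zero' i h).1, (pz_zero' i h).2,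
        ev_zero, ev_one]
      simp [lv, dotProduct, Fin.sum_univ_three]
    · rw [Projectivization.orthogonal_mk]
      simp only [lv, hv, dotProduct, Fin.sum_univ_three, Matrix.cons_val_zero,
        Matrix.cons_val_one, Matrix.cons_val]
      ring

/-- from the affine model to the blow-up -/
noncomputable def ofB (y : Bm pp) : Bl qq :=
  ⟨(Projectivization.mk ℂ (hv y.1.1) (hv_ne _), fam y), fam_mem y⟩

theorem dt_e0_hv (v : ℂ × ℂ) : dt e0 (Projectivization.mk ℂ (hv v) (hv_ne v)) ≠ 0 := by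
  rw [dt_mk]
  simp [e0, hv, dotProduct, Fin.sum_univ_three]

theorem k_cases (k : Fin 9) : k = 8 ∨ ∃ k', k = k8 k' := by
  revert k; decide

theorem ofB_mem (y : Aff) (c : Fin 9 ⊕ Fin 4) : ofB y.1 ∉ comp qq ll ee c := by
  rcases c with k | l
  · rcases k_cases k with rfl | ⟨k, rfl⟩
    · intro h
      have h1 := (ll_last _).mp h.1
      exact dt_e0_hv _ h1
    · intro h
      apply y.2
      rw [Set.mem_iUnion]
      refine ⟨k, ?_, ?_⟩
      · exact (on_line _ k).mp h.1
      · intro j hj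
        have h2 : (ofB y.1).1.2 (i8 j) = ll (k8 k) :=
          h.2 (i8 j) ((inc_iff _ _).mpr ((mem_I j k).mp hj))
        have h3 : (ofB y.1).1.2 (i8 j) = y.1.1.2 j := by
          change fam y.1 (i8 j) = _
          unfold fam
          rw [dif_pos (show (i8 j).1 < 8 from j.2)]
          rfl
        rw [h3] at h2
        exact (slope_line j k hj _ (y.1.2 j).1).mpr h2
  · intro h
    have h1 : Projectivization.mk ℂ (hv y.1.1.1) (hv_ne _) = qq (ee l) := h
    apply dt_e0_hv y.1.1.1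
    rw [h1, ← ll_last, inc_iff]
    exact (inf_points _).mpr ⟨l, rfl⟩

theorem mk_cont {T : Type*} [TopologicalSpace T] (v : T → Fin 3 → ℂ) (hc : Continuous v)
    (h : ∀ t, v t ≠ 0) : Continuous fun t => (Projectivization.mk ℂ (v t) (h t) : P2) := by
  have : Continuous fun t => (⟨v t, h t⟩ : {v : Fin 3 → ℂ // v ≠ 0}) := hc.subtype_mk _
  exact qm_cont.comp this

/-- from the affine model to the open surface, continuously -/
noncomputable def ofAff : C(Aff, Surf qq ll ee) :=
  ⟨fun y => ⟨ofB y.1, ofB_mem y⟩, by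
    apply Continuous.subtype_mk
    unfold ofB
    apply Continuous.subtype_mk
    refine Continuous.prodMk ?_ ?_
    · apply mk_cont (fun y : Aff => hv y.1.1.1)
      unfold hv
      fun_prop
    · apply continuous_pi
      intro i
      unfold fam
      split_ifs with h
      · fun_prop
      · apply mk_cont (fun y : Aff => lv i y.1.1.1)
        unfold lv
        fun_prop⟩

theorem ofAff_toAff (b : Surf qq ll ee) : ofAff (toAff b) = b := by
  have hx := surf_aff b
  have h1 : Projectivization.mk ℂ (hv (aff b.1.1.1)) (hv_ne _) = b.1.1.1 := (eq_mk_aff _ hx).symm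
  apply Subtype.ext
  apply Subtype.ext
  apply Prod.ext
  · exact h1
  · funext i
    change fam (toB b) i = b.1.1.2 i
    unfold fam
    split_ifs with h
    · rfl
    · have hne : b.1.1.1 ≠ qq i := by
        intro h0
        apply hx
        rw [h0, qq, dt_mk_eq]
        simp [e0, evv, dotProduct, Fin.sum_univ_three, (pz_zero' i h).1, ev_zero]
      have h2 := fam_mem (toB b) i
      unfold fam at h2
      rw [dif_neg h] at h2
      have h3 : (Projectivization.mk ℂ (hv (toB b).1.1) (hv_ne _) : P2) = b.1.1.1 := h1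
      rw [h3] at h2
      exact line_unique hne h2.2 h2.1 (b.1.2 i).2 (b.1.2 i).1

/-- `X` is `ℚ`-acyclic. -/
theorem qacyclic : QAcyclic (Surf qq ll ee) := by
  intro k hk
  obtain ⟨n, rfl⟩ := Nat.exists_eq_succ_of_ne_zero hk.ne'
  exact isZero_of_Ac (Ac_of_retract toAff ofAff ofAff_toAff (Aff_Ac n))

end Pool.Agent.Y209.QA
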